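import Pool.Agent.R852.PP.Div

set_option autoImplicit false
set_option linter.unusedSectionVars false
set_option linter.unusedVariables false

/-! The functional equation of `h ∏_t (∑_j y_{t, j} f_{t, j}) ^ a_t` and the one of the ideal
`h ∏_t (f_{t, j})_j ^ a_t`, with the factor of the strict transforms. -/

namespace Pool.Agent.R852.PP

open MvPolynomial Pool.Agent.W574.SM Pool.Agent.W574.HS Pool.Agent.W574.LM Pool.Agent.W574.RO
open Pool.Agent.TH192.DT

section Main

variable {σ τ : Type} [Fintype τ] [DecidableEq τ] {κ : τ → Type} [∀ t, Fintype (κ t)]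
  [∀ t, DecidableEq (κ t)] (a : τ → ℕ)

/-- the generators of the ideal `h ∏_t (f_{t, j})_j ^ a_t` -/
noncomputable def gen (h : MvPolynomial σ ℂ) (f : (t : τ) → κ t → MvPolynomial σ ℂ)
    (J : Ch κ a) : MvPolynomial σ ℂ := h * prodFam (fun q : Σ t, Fin (a t) => f q.1) J

/-- the polynomial `h(x) ∏_t (∑_j y_{t, j} f_{t, j}(x)) ^ a_t` -/
noncomputable def form (h : MvPolynomial σ ℂ) (f : (t : τ) → κ t → MvPolynomial σ ℂ) :
    MvPolynomial ((Σ t, κ t) ⊕ σ) ℂ := rename Sum.inr h * powProd a f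

/-- the factor of the strict transforms: `∏_t ∏_{1 ≤ i ≤ a_t} (a_t s + i)` -/
noncomputable def phiA : Polynomial ℂ :=
  ∏ t, ∏ i ∈ Finset.range (a t),
    (Polynomial.C (a t : ℂ) * Polynomial.X + Polynomial.C ((i + 1 : ℕ) : ℂ))

theorem phiA_eval (s : Ch κ a →₀ ℕ) :
    evN s (facQ (κ := κ) a) = (phiA a).eval ((∑ J, s J : ℕ) : ℂ) := by
  rw [evN, facQ, phiA, map_prod, Polynomial.eval_prod]
  refine Finset.prod_congr rfl fun t _ => ?_
  rw [map_prod, Polynomial.eval_prod]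
  refine Finset.prod_congr rfl fun i _ => ?_
  rw [map_add, map_mul, eval_C, eval_C, map_sum]
  simp only [eval_X]
  rw [Polynomial.eval_add, Polynomial.eval_mul, Polynomial.eval_C, Polynomial.eval_C,
    Polynomial.eval_X, Nat.cast_sum]

theorem phiA_ne (n : ℕ) : (phiA a).eval (n : ℂ) ≠ 0 := by
  rw [phiA, Polynomial.eval_prod]
  refine Finset.prod_ne_zero_iff.2 fun t _ => ?_
  rw [Polynomial.eval_prod]
  refine Finset.prod_ne_zero_iff.2 fun i _ => ?_
  rw [Polynomial.eval_add, Polynomial.eval_mul, Polynomial.eval_C, Polynomial.eval_C,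
    Polynomial.eval_X]
  exact_mod_cast Nat.succ_ne_zero (a t * n + i)

theorem prod_gen (h : MvPolynomial σ ℂ) (f : (t : τ) → κ t → MvPolynomial σ ℂ)
    (β : Ch κ a → ℕ) : ∏ J, gen a h f J ^ β J =
      h ^ (∑ J, β J) * ∏ J, prodFam (fun q : Σ t, Fin (a t) => f q.1) J ^ β J := by
  simp only [gen, mul_pow, Finset.prod_mul_distrib, Finset.prod_pow_eq_pow_sum]

theorem hat_form_pow (h : MvPolynomial σ ℂ) (f : (t : τ) → κ t → MvPolynomial σ ℂ) (n : ℕ)
    (α : (Σ t, κ t) →₀ ℕ) :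
    hat (form a h f ^ n) α = if (∀ t, ∑ j, α ⟨t, j⟩ = n * a t) then
        ((∏ t, (n * a t).factorial : ℕ) : ℂ) • (h ^ n * ∏ q : Σ t, κ t, f q.1 q.2 ^ α q)
          else 0 := by
  rw [form, mul_pow, ← map_pow, hat_r, hat_powProd_pow]
  split_ifs
  · rw [mul_smul_comm]
  · rw [mul_zero]

theorem term_rep' [DecidableEq σ] (h : MvPolynomial σ ℂ)
    (f : (t : τ) → κ t → MvPolynomial σ ℂ) (c : (Σ t, κ t) → ℤ)
    (p : MvPolynomial (Σ t, κ t) ℂ) (R : weyl σ) :
    ∃ E : ((Ch κ a →₀ ℕ) → MvPolynomial σ ℂ) → (Ch κ a →₀ ℕ) → MvPolynomial σ ℂ, Rep E ∧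
      ∀ (s : Ch κ a →₀ ℕ) (K : ℂ), (evN (tot a s) p * (fall c (tot a s) : ℂ)) •
        (R : Module.End ℂ (MvPolynomial σ ℂ)) (if (∀ t, ∑ j, (sh (tot a s) c) ⟨t, j⟩ =
          (∑ J, s J + 1) * a t) then K • (h ^ (∑ J, s J + 1) *
            ∏ q : Σ t, κ t, f q.1 q.2 ^ (sh (tot a s) c) q) else 0) =
        K • E (fun β => if ∑ J, β J = ∑ J, s J + 1 then
          ∏ J, gen a h f J ^ β J else 0) s := by
  classical
  by_cases hbal : ∀ t, ∑ j, c ⟨t, j⟩ = a t
  · obtain ⟨M, hM, w, k, hk, hs⟩ := fall_tot a _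
      (Finsupp.equivFunOnFinite.symm fun q : Σ t, κ t => (-c q).toNat) rfl
    have hpos : ∀ m, w m ≠ 0 → ∀ q, 0 ≤ (tot a (k m) q : ℤ) + c q := by
      intro m hm q
      have h1 : (-c q).toNat ≤ tot a (k m) q := hk m hm q
      omega
    have hl : ∀ m, ∃ l : Ch κ a →₀ ℕ, w m ≠ 0 → ∑ J, l J = ∑ J, k m J + 1 ∧
        tot a l = sh (tot a (k m)) c := by
      intro m
      by_cases hm : w m = 0
      · exact ⟨0, fun h => absurd hm h⟩
      · obtain ⟨l, h1, h2⟩ := tot_surj a (sh (tot a (k m)) c) (∑ J, k m J + 1) (by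
          intro t
          have h3 : ((∑ j, sh (tot a (k m)) c ⟨t, j⟩ : ℕ) : ℤ)
              = ((∑ J, k m J) * a t : ℕ) + ∑ j, c ⟨t, j⟩ := by
            rw [← tot_sum]
            push_cast
            rw [← Finset.sum_add_distrib]
            refine Finset.sum_congr rfl fun j _ => ?_
            rw [sh_apply, Int.toNat_of_nonneg (hpos m hm _)]
          rw [hbal t] at h3
          have h4 : (((∑ J, k m J + 1) * a t : ℕ) : ℤ) = ((∑ J, k m J) * a t : ℕ) + (a t : ℤ) := by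
            push_cast; ring
          rw [← h4] at h3
          exact_mod_cast h3)
        exact ⟨l, fun _ => ⟨h1, h2⟩⟩
    choose l hl using hl
    refine ⟨fun H s => evN s (subT a p) • ∑ m, evN s (C (w m : ℂ)) • ((dsc s (k m) : ℂ) •
      (R : Module.End ℂ (MvPolynomial σ ℂ)) (H (s - k m + l m))), ?_, ?_⟩
    · refine rep_poly (rep_sum Finset.univ (fun m H s => evN s (C (w m : ℂ)) •
        ((dsc s (k m) : ℂ) • (R : Module.End ℂ (MvPolynomial σ ℂ)) (H (s - k m + l m))))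
        fun m _ => rep_poly (rep_desc (k m) (fun H s =>
          (R : Module.End ℂ (MvPolynomial σ ℂ)) (H (s + l m)))
          (rep_shift (l m) (fun H s => (R : Module.End ℂ (MvPolynomial σ ℂ)) (H s))
          (rep_weyl rep_id R))) _) _
    · intro s K
      beta_reduce
      rw [fall_eq_dsc, hs s, evN_subT, Nat.cast_sum, Finset.mul_sum, Finset.sum_smul,
        smul_comm K, Finset.smul_sum, Finset.smul_sum]
      refine Finset.sum_congr rfl fun m _ => ?_
      have hC : evN s (C (w m : ℂ)) = w m := by rw [evN, eval_C]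
      rw [hC]
      by_cases hw : w m = 0
      · simp [hw]
      by_cases hz : dsc s (k m) = 0
      · simp [hz]
      have hle := dsc_ne hz
      obtain ⟨hl1, hl2⟩ := hl m hw
      have hts : tot a s = tot a (s - k m) + tot a (k m) := by
        rw [← tot_add, tsub_add_cancel_of_le hle]
      have hsh : sh (tot a s) c = tot a (s - k m + l m) := by
        ext q
        rw [tot_add, hl2, sh_apply, Finsupp.add_apply, sh_apply, hts, Finsupp.add_apply]
        have := hpos m hw q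
        push_cast
        omega
      have hsum : ∑ J, (s - k m + l m : Ch κ a →₀ ℕ) J = ∑ J, s J + 1 := by
        have h1 : ∑ J, s J = ∑ J, (s - k m : Ch κ a →₀ ℕ) J + ∑ J, k m J := by
          rw [← Finset.sum_add_distrib]
          refine Finset.sum_congr rfl fun J _ => ?_
          rw [Finsupp.tsub_apply, Nat.sub_add_cancel (hle J)]
        simp only [Finsupp.add_apply, Finset.sum_add_distrib]
        omega
      rw [hsh, if_pos (fun t => by rw [tot_sum, hsum]), if_pos hsum, prod_tot, prod_gen, hsum,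
        map_smul, Nat.cast_mul, smul_smul, smul_smul, smul_smul, smul_smul]
      congr 1
      ring
  · refine ⟨fun _ _ => 0, rep_zero, fun s K => ?_⟩
    rw [smul_zero]
    by_cases hf : fall c (tot a s) = 0
    · rw [hf]; simp
    · rw [if_neg, map_zero, smul_zero]
      intro h
      apply hbal
      intro t
      have hle := dsc_ne (s := tot a s) (k := Finsupp.equivFunOnFinite.symm fun q => (-c q).toNat)
        (by rw [← fall_eq_dsc]; exact hf)
      have h3 : ((∑ j, sh (tot a s) c ⟨t, j⟩ : ℕ) : ℤ)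
          = ((∑ J, s J) * a t : ℕ) + ∑ j, c ⟨t, j⟩ := by
        rw [← tot_sum]
        push_cast
        rw [← Finset.sum_add_distrib]
        refine Finset.sum_congr rfl fun j _ => ?_
        rw [sh_apply, Int.toNat_of_nonneg]
        have h5 : (-c ⟨t, j⟩).toNat ≤ tot a s ⟨t, j⟩ := hle ⟨t, j⟩
        omega
      rw [h t] at h3
      push_cast at h3
      linarith

/-- **From `h ∏_t (∑_j y_{t, j} f_{t, j}) ^ a_t` to the ideal, with the factor.** -/
theorem locEq_strong [DecidableEq σ] (h : MvPolynomial σ ℂ)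
    (f : (t : τ) → κ t → MvPolynomial σ ℂ) (hh : h ≠ 0) (hf : ∀ t, ∃ j, f t j ≠ 0) (t0 : τ)
    (ht0 : a t0 ≠ 0) (b : Polynomial ℂ) (H : MvPolynomial ((Σ t, κ t) ⊕ σ) ℂ)
    (hH : hat H 0 ≠ 0)
    (P : ℕ →₀ Pool.Agent.H628R4.TP.weylS ((Σ t, κ t) ⊕ σ))
    (hP : ∀ s : ℕ, H * (C (b.eval (s : ℂ)) * form a h f ^ s) = P.sum fun m Q =>
      ((s : ℂ) ^ m) • (Q : Module.End ℂ (MvPolynomial ((Σ t, κ t) ⊕ σ) ℂ))
        (form a h f ^ (s + 1))) :
    ∃ b' : Polynomial ℂ, b = phiA a * b' ∧ IsLocEq (hat H 0) (gen a h f) b' := by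
  classical
  obtain ⟨E, hE, hEP⟩ := exists_op (σ := σ) a t0 ht0 P
  obtain ⟨κ0, hκ, c, p, R, hR⟩ := hE
  choose E' hE'1 hE'2 using fun k : κ0 => term_rep' a h f (c k) (p k) (R k)
  have hrep : Rep (fun G s => ∑ k, E' k G s) := rep_sum Finset.univ _ fun k _ => hE'1 k
  have key : ∀ s : Ch κ a →₀ ℕ, (b.eval ((∑ J, s J : ℕ) : ℂ)) •
      (hat H 0 * ∏ J, gen a h f J ^ s J) = ((phiA a).eval ((∑ J, s J : ℕ) : ℂ)) •
        (fun G s => ∑ k, E' k G s)
          (fun β => if ∑ J, β J = ∑ J, s J + 1 then ∏ J, gen a h f J ^ β J else 0) s := by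
    intro s
    have h1 := congrArg (fun G => hat G (tot a s)) (hP (∑ J, s J))
    beta_reduce at h1
    rw [hEP, hR] at h1
    have hn : ∀ γ : (Σ t, κ t) →₀ ℕ, γ ≤ tot a s → γ ≠ tot a s →
        hat (C (b.eval ((∑ J, s J : ℕ) : ℂ)) * form a h f ^ (∑ J, s J)) γ = 0 := by
      intro γ hγ hne
      rw [hat_C_mul, hat_form_pow, if_neg, smul_zero]
      intro h
      apply hne
      apply eq_of_le_of_sum_eq hγ
      rw [Fintype.sum_sigma, Fintype.sum_sigma]
      exact Finset.sum_congr rfl fun t _ => by rw [h t, tot_sum]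
    rw [hat_mul_top H _ _ hn, hat_C_mul, hat_form_pow, if_pos (fun t => tot_sum a s t),
      mul_smul_comm, mul_smul_comm, prod_tot, ← prod_gen] at h1
    simp only [hat_form_pow] at h1
    rw [Finset.sum_congr rfl fun k _ => hE'2 k s _, ← Finset.smul_sum, smul_comm] at h1
    have hfact : ((∏ t, ((∑ J, s J) * a t).factorial : ℕ) : ℂ) ≠ 0 :=
      Nat.cast_ne_zero.2 (Finset.prod_ne_zero_iff.2 fun t _ => Nat.factorial_ne_zero _)
    apply smul_right_injective (MvPolynomial σ ℂ) hfact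
    beta_reduce
    rw [h1, smul_smul, ← phiA_eval (κ := κ), evN_facQ]
  have hJ : ∃ J0 : Ch κ a, gen a h f J0 ≠ 0 := by
    choose j hj using hf
    refine ⟨fun q => j q.1, mul_ne_zero hh ?_⟩
    exact Finset.prod_ne_zero_iff.2 fun q _ => hj q.1
  obtain ⟨J0, hJ0⟩ := hJ
  obtain ⟨b', hb', hk⟩ := divide (gen a h f) J0 hJ0 (hat H 0) hH b (phiA a) (phiA_ne a) _ hrep key
  exact ⟨b', hb', isLocEq_of_rep _ b' _ _ hrep hk⟩

theorem functional_of_loc {ι : Type} [Fintype ι] (g : ι → MvPolynomial σ ℂ) (b : Polynomial ℂ)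
    (h : IsLocEq 1 g b) : IsFunctionalEq g b := by
  obtain ⟨S, P, h1, h2⟩ := h
  refine ⟨S, P, h1, fun s => ?_⟩
  rw [← h2 s, one_mul]

/-- **The global form.** -/
theorem functionalEq_strong [DecidableEq σ] (h : MvPolynomial σ ℂ)
    (f : (t : τ) → κ t → MvPolynomial σ ℂ) (hh : h ≠ 0) (hf : ∀ t, ∃ j, f t j ≠ 0) (t0 : τ)
    (ht0 : a t0 ≠ 0) (b : Polynomial ℂ)
    (hb : Pool.Agent.H628R4.TP.IsBFunction (form a h f) b) :
    ∃ b' : Polynomial ℂ, b = phiA a * b' ∧ IsFunctionalEq (gen a h f) b' := by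
  obtain ⟨P, hP⟩ := hb
  have h1 : hat (1 : MvPolynomial ((Σ t, κ t) ⊕ σ) ℂ) 0 = 1 := by
    rw [hat_one, if_pos rfl]
  obtain ⟨b', hb', h2⟩ := locEq_strong a h f hh hf t0 ht0 b 1 (by rw [h1]; exact one_ne_zero) P
    fun s => by
      rw [one_mul]
      exact hP s
  rw [h1] at h2
  exact ⟨b', hb', functional_of_loc _ _ h2⟩

end Main

end Pool.Agent.R852.PP
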