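import Pool.Agent.Y230.PS.Fam2

set_option autoImplicit false
set_option linter.unusedSectionVars false
set_option linter.unusedVariables false

/-! # The zeta function of `h ∏_t (∑_j y_{t, j} f_{t, j}) ^ a_t` over `ℚ_p` -/

namespace Pool.Agent.R852.PP

open MeasureTheory MvPolynomial Pool.Agent.W427.SMC Pool.Agent.Y230.PT Pool.Agent.Y230.PS
open scoped ENNReal

attribute [local instance] msZ bsZ

variable {p : ℕ} [Fact p.Prime]

section yint

variable {τ : Type} [Fintype τ] [DecidableEq τ] {κ : τ → Type} [∀ t, Fintype (κ t)]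
  [∀ t, DecidableEq (κ t)]

/-- **The integral over the `y`.** -/
theorem yint (z : (t : τ) → κ t → ℚ_[p]) (hκ : ∀ t, Nonempty (κ t)) (s : τ → ℝ)
    (hs : ∀ t, 0 ≤ s t) :
    ∫⁻ y : (Σ t, κ t) → ℤ_[p], ∏ t, N p (s t) (∑ j, inc p (y ⟨t, j⟩) * z t j)
      ∂(Measure.pi fun _ : (Σ t, κ t) => mu p) = ∏ t, (mx (z t) (s t) * phi p (s t)) := by
  have hmax : ∀ t, ∃ j0, ∀ j, ‖z t j‖ ≤ ‖z t j0‖ := by
    intro t
    have := hκ t
    exact Finite.exists_max (fun j => ‖z t j‖)
  choose j0 hj0 using hmax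
  have hd : ∀ t j, ∃ c : ℤ_[p], z t j = z t (j0 t) * inc p c := by
    intro t j
    by_cases h0 : z t (j0 t) = 0
    · refine ⟨0, ?_⟩
      have h1 := hj0 t j
      rw [h0, norm_zero] at h1
      rw [norm_le_zero_iff.1 h1, h0, zero_mul]
    · have h1 : ‖z t j / z t (j0 t)‖ ≤ 1 := by
        rw [norm_div]
        exact div_le_one_of_le₀ (hj0 t j) (norm_nonneg _)
      refine ⟨⟨z t j / z t (j0 t), h1⟩, ?_⟩
      change z t j = z t (j0 t) * (z t j / z t (j0 t))
      rw [mul_div_cancel₀ _ h0]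
  choose c hc using hd
  have hmeas : ∀ t, Measurable (fun y : (Σ t, κ t) → ℤ_[p] =>
      N p (s t) (∑ j, inc p (y ⟨t, j⟩) * z t j)) := by
    intro t
    unfold N
    refine ENNReal.measurable_ofReal.comp (Measurable.pow_const ?_ _)
    refine (Continuous.norm (continuous_finsetSum _ fun j _ => ?_)).measurable
    exact ((inc_emb p).continuous.comp (continuous_apply (⟨t, j⟩ : Σ t, κ t))).mul
      continuous_const
  have h1 := lintegral_prod_avg p (fun t => (⟨t, j0 t⟩ : Σ t, κ t))
    (fun t (y : (Σ t, κ t) → ℤ_[p]) => N p (s t) (∑ j, inc p (y ⟨t, j⟩) * z t j)) hmeas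
    (fun t => mx (z t) (s t) * phi p (s t)) ?_ ?_ Finset.univ
  · exact h1
  · intro t t' htt y u
    have h2 : ∀ j : κ t, Function.update y ⟨t', j0 t'⟩ u ⟨t, j⟩ = y ⟨t, j⟩ := by
      intro j
      refine Function.update_of_ne ?_ _ _
      intro h
      exact htt (congrArg Sigma.fst h).symm
    simp only [h2]
  · intro t y
    set C : ℤ_[p] := ∑ j ∈ Finset.univ.erase (j0 t), y ⟨t, j⟩ * c t j with hC
    have hinc : ∀ a b : ℤ_[p], inc p (a * b) = inc p a * inc p b := fun a b => by
      simp [inc]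
    have hinca : ∀ a b : ℤ_[p], inc p (a + b) = inc p a + inc p b := fun a b => by
      simp [inc]
    have hincs : inc p C = ∑ j ∈ Finset.univ.erase (j0 t), inc p (y ⟨t, j⟩) * inc p (c t j) := by
      rw [hC]
      simp [inc]
    have h2 : ∀ u, (∑ j, inc p (Function.update y ⟨t, j0 t⟩ u ⟨t, j⟩) * z t j) =
        z t (j0 t) * inc p (C + u) := by
      intro u
      rw [← Finset.add_sum_erase _ _ (Finset.mem_univ (j0 t)), Function.update_self, hinca,
        hincs, mul_add, Finset.mul_sum, add_comm, mul_comm (inc p u)]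
      congr 1
      refine Finset.sum_congr rfl fun j hj => ?_
      rw [Function.update_of_ne, hc t j]
      · ring
      · intro h
        have h3 := (Sigma.mk.inj h).2
        exact (Finset.mem_erase.1 hj).1 (eq_of_heq h3)
    simp only [h2, N_mul, N_inc]
    rw [lintegral_const_mul' _ _ (N_ne_top _ _), mx_eq_of_max (z t) (j0 t) (hj0 t) (hs t),
      lintegral_add_left_eq_self (μ := mu p) (fun u => tau p (s t) u) C]
    rfl

end yint

section norms

/-- the norms of the products of the entries of several vectors -/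
theorem norm_prodv {Q : Type} [Fintype Q] [DecidableEq Q] {K : Q → Type} [∀ q, Fintype (K q)]
    (z : (q : Q) → K q → ℚ_[p]) :
    ‖(fun J : (q : Q) → K q => ∏ q, z q (J q))‖ = ∏ q, ‖z q‖ := by
  refine le_antisymm ?_ ?_
  · refine (pi_norm_le_iff_of_nonneg (Finset.prod_nonneg fun q _ => norm_nonneg _)).2 ?_
    intro J
    rw [norm_prod]
    exact Finset.prod_le_prod (fun q _ => norm_nonneg _) fun q _ => norm_le_pi_norm (z q) (J q)
  · by_cases h : ∃ q, IsEmpty (K q)
    · obtain ⟨q, hq⟩ := h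
      rw [Finset.prod_eq_zero (Finset.mem_univ q)]
      · exact norm_nonneg _
      · rw [Subsingleton.elim (z q) 0, norm_zero]
    · push Not at h
      have hne : ∀ q, Nonempty (K q) := h
      choose j hj using fun q => norm_attained (z q)
      have h1 : ∏ q, ‖z q‖ = ‖∏ q, z q (j q)‖ := by
        rw [norm_prod]
        exact Finset.prod_congr rfl fun q _ => hj q
      rw [h1]
      exact norm_le_pi_norm (fun J : (q : Q) → K q => ∏ q, z q (J q)) j

variable {σ τ : Type} [Fintype σ] [Fintype τ] [DecidableEq τ] {κ : τ → Type}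
  [∀ t, Fintype (κ t)] (a : τ → ℕ)

/-- the generators of the ideal `h ∏_t (f_{t, j})_j ^ a_t` -/
noncomputable def genK (h : MvPolynomial σ ℚ_[p]) (f : (t : τ) → κ t → MvPolynomial σ ℚ_[p])
    (J : (q : Σ t, Fin (a t)) → κ q.1) : MvPolynomial σ ℚ_[p] := h * ∏ q, f q.1 (J q)

/-- the polynomial `h(x) ∏_t (∑_j y_{t, j} f_{t, j}(x)) ^ a_t` -/
noncomputable def formK (h : MvPolynomial σ ℚ_[p]) (f : (t : τ) → κ t → MvPolynomial σ ℚ_[p]) :
    MvPolynomial ((Σ t, κ t) ⊕ σ) ℚ_[p] :=
  rename Sum.inr h * ∏ t, (∑ j, X (Sum.inl ⟨t, j⟩) * rename Sum.inr (f t j)) ^ a t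

theorem sz_genK (h : MvPolynomial σ ℚ_[p]) (f : (t : τ) → κ t → MvPolynomial σ ℚ_[p])
    (x : σ → ℤ_[p]) :
    sz (genK a h f) x = ‖eval (fun i => inc p (x i)) h‖ * ∏ t, sz (f t) x ^ a t := by
  have h1 : (fun J : (q : Σ t, Fin (a t)) → κ q.1 =>
      eval (fun i => inc p (x i)) (genK a h f J)) = eval (fun i => inc p (x i)) h •
        fun J : (q : Σ t, Fin (a t)) → κ q.1 => ∏ q, (fun j => eval (fun i => inc p (x i))
          (f q.1 j)) (J q) := by
    funext J
    rw [genK, map_mul, map_prod]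
    rfl
  unfold sz
  rw [h1, norm_smul, norm_prodv (fun (q : Σ t, Fin (a t)) (j : κ q.1) =>
    eval (fun i => inc p (x i)) (f q.1 j)), Fintype.prod_sigma]
  congr 1
  refine Finset.prod_congr rfl fun t _ => ?_
  change ∏ _y : Fin (a t), ‖fun j => (eval fun i => inc p (x i)) (f t j)‖ = _
  rw [Finset.prod_const, Finset.card_univ, Fintype.card_fin]

theorem N_eval_pow (s : ℝ) (x : ℚ_[p]) (n : ℕ) : N p s (x ^ n) = N p (n * s) x := by
  unfold N
  congr 1
  rw [norm_pow, ← Real.rpow_natCast, ← Real.rpow_mul (norm_nonneg _)]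

/-- **The zeta function of `h ∏_t (∑_j y_{t, j} f_{t, j}) ^ a_t`.** -/
theorem FF_formK [∀ t, DecidableEq (κ t)] (hκ : ∀ t, Nonempty (κ t)) (h : MvPolynomial σ ℚ_[p])
    (f : (t : τ) → κ t → MvPolynomial σ ℚ_[p]) {s : ℝ} (hs : 0 ≤ s) :
    FF (fun _ : Fin 1 => formK a h f) s =
      FF (genK a h f) s * ∏ t, ((phi p (a t * s)).toReal : ℂ) := by
  have hcf : ∀ g : MvPolynomial σ ℚ_[p], Continuous (fun x : σ → ℤ_[p] =>
      eval (fun i => inc p (x i)) g) :=
    fun g => (MvPolynomial.continuous_eval _).comp (continuous_pi fun i =>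
      (inc_emb p).continuous.comp (continuous_apply i))
  have hG : Measurable (fun q : ((Σ t, κ t) → ℤ_[p]) × (σ → ℤ_[p]) =>
      ‖eval (fun i => inc p (q.2 i)) h * ∏ t, (∑ j, inc p (q.1 ⟨t, j⟩) *
        eval (fun i => inc p (q.2 i)) (f t j)) ^ a t‖) := by
    refine (Continuous.norm ?_).measurable
    refine ((hcf h).comp continuous_snd).mul (continuous_finsetProd _ fun t _ => ?_)
    refine (continuous_finsetSum _ fun j _ => ?_).pow _
    exact ((inc_emb p).continuous.comp ((continuous_apply (⟨t, j⟩ : Σ t, κ t)).comp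
      continuous_fst)).mul ((hcf (f t j)).comp continuous_snd)
  have e0 : FF (fun _ : Fin 1 => formK a h f) s = FZ ((Measure.pi fun _ : (Σ t, κ t) => mu p).prod
      (Measure.pi fun _ : σ => mu p)) (fun q => ‖eval (fun i => inc p (q.2 i)) h *
        ∏ t, (∑ j, inc p (q.1 ⟨t, j⟩) * eval (fun i => inc p (q.2 i)) (f t j)) ^ a t‖) s := by
    rw [← FZ_prod (p := p) (σ := (Σ t, κ t)) (τ := σ) _ hG s]
    unfold FF
    congr 1
    funext x
    unfold sz
    rw [pi_norm_const]
    congr 1
    unfold formK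
    rw [map_mul, eval_rename, map_prod]
    congr 1
    refine Finset.prod_congr rfl fun t _ => ?_
    rw [map_pow, map_sum]
    congr 1
    refine Finset.sum_congr rfl fun j _ => ?_
    rw [map_mul, eval_X, eval_rename]
    rfl
  rw [e0]
  unfold FZ FF FZ
  rw [← Complex.ofReal_prod, ← ENNReal.toReal_prod, ← Complex.ofReal_mul, ← ENNReal.toReal_mul]
  congr 2
  have hG2 : Measurable (fun q : ((Σ t, κ t) → ℤ_[p]) × (σ → ℤ_[p]) => ENNReal.ofReal
      (‖eval (fun i => inc p (q.2 i)) h * ∏ t, (∑ j, inc p (q.1 ⟨t, j⟩) *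
        eval (fun i => inc p (q.2 i)) (f t j)) ^ a t‖ ^ s)) :=
    ENNReal.measurable_ofReal.comp (hG.pow_const s)
  have has : ∀ t, 0 ≤ (a t : ℝ) * s := fun t => mul_nonneg (Nat.cast_nonneg _) hs
  rw [lintegral_prod_symm _ hG2.aemeasurable, ← lintegral_mul_const']
  · refine lintegral_congr fun x => ?_
    have h7 := yint (p := p) (fun t j => eval (fun i => inc p (x i)) (f t j)) hκ
      (fun t => a t * s) has
    have h8 : ∀ y : (Σ t, κ t) → ℤ_[p], ENNReal.ofReal
        (‖eval (fun i => inc p (x i)) h * ∏ t, (∑ j, inc p (y ⟨t, j⟩) *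
          eval (fun i => inc p (x i)) (f t j)) ^ a t‖ ^ s) =
        N p s (eval (fun i => inc p (x i)) h) * ∏ t, N p (a t * s) (∑ j, inc p (y ⟨t, j⟩) *
          eval (fun i => inc p (x i)) (f t j)) := by
      intro y
      change N p s _ = _
      rw [N_mul]
      congr 1
      have hN : ∀ (S : Finset τ) (g : τ → ℚ_[p]), N p s (∏ t ∈ S, g t) = ∏ t ∈ S, N p s (g t) := by
        intro S g
        induction S using Finset.induction_on with
        | empty => simp [N_one]
        | insert k S hk ih => rw [Finset.prod_insert hk, Finset.prod_insert hk, N_mul, ih]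
      rw [hN]
      exact Finset.prod_congr rfl fun t _ => N_eval_pow s _ _
    simp only [h8]
    rw [lintegral_const_mul' _ _ (N_ne_top _ _), h7, Finset.prod_mul_distrib, ← mul_assoc]
    congr 1
    rw [sz_genK]
    have h9 : ∀ t, mx (fun j => eval (fun i => inc p (x i)) (f t j)) (a t * s) =
        ENNReal.ofReal ((sz (f t) x ^ a t) ^ s) := by
      intro t
      have := hκ t
      rw [← ofReal_norm_rpow _ (has t)]
      congr 1
      rw [Real.rpow_mul (norm_nonneg _), Real.rpow_natCast]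
      rfl
    rw [Finset.prod_congr rfl fun t _ => h9 t, ← ENNReal.ofReal_prod_of_nonneg, Real.mul_rpow
      (norm_nonneg _) (Finset.prod_nonneg fun t _ => pow_nonneg (sz_nonneg _ _) _),
      ENNReal.ofReal_mul (Real.rpow_nonneg (norm_nonneg _) _),
      Real.finsetProd_rpow _ _ fun t _ => pow_nonneg (sz_nonneg _ _) _]
    · rfl
    · exact fun t _ => Real.rpow_nonneg (pow_nonneg (sz_nonneg _ _) _) _
  · refine (ENNReal.prod_lt_top fun t _ => ?_).ne
    exact (phi_le p (a t * s) (has t)).trans_lt ENNReal.one_lt_top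

/-- the factor of one strict transform -/
theorem phi_FRa (n : ℕ) :
    FR p (fun T => if T ^ n = (p : ℂ) then 1 else 0) (fun s => ((phi p (n * s)).toReal : ℂ)) := by
  have hpC : (p : ℂ) ≠ 0 := by exact_mod_cast (Fact.out : p.Prime).ne_zero
  have hp1 : (p : ℂ) ≠ 1 := by exact_mod_cast (Fact.out : p.Prime).one_lt.ne'
  have hp2 : (1 : ℝ) < p := by exact_mod_cast (Fact.out : p.Prime).one_lt
  set D : Polynomial ℂ := Polynomial.X ^ n - Polynomial.C (p : ℂ) with hD
  have hD0 : D ≠ 0 := by
    intro h0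
    have h1 := congrArg (fun P : Polynomial ℂ => P.eval 1) h0
    simp only [hD, Polynomial.eval_sub, Polynomial.eval_pow, Polynomial.eval_X, one_pow,
      Polynomial.eval_C, Polynomial.eval_zero] at h1
    exact hp1 (sub_eq_zero.1 h1).symm
  refine FR_of_rat D (Polynomial.C (1 - (p : ℂ))) hD0 (fun s hs => ?_) fun T hT => ?_
  · have h3 := phi_eq p (n * s) (mul_nonneg (Nat.cast_nonneg _) hs)
    have h4 := congrArg (fun x : ℝ => (x : ℂ)) h3
    push_cast at h4
    have h6 : (((p : ℝ) ^ (-(n * s)) : ℝ) : ℂ) = ((tr' p s : ℝ) : ℂ) ^ n := by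
      rw [← Complex.ofReal_pow, ← tr'_nat p s n]
      rfl
    rw [h6] at h4
    simp only [hD, Polynomial.eval_sub, Polynomial.eval_C, Polynomial.eval_X, Polynomial.eval_pow]
    linear_combination -h4
  · by_cases hTp : T ^ n = (p : ℂ)
    · have hT1 : ¬ ‖T‖ ≤ 1 := by
        intro h
        have h1 : ‖T‖ ^ n ≤ 1 := pow_le_one₀ (norm_nonneg _) h
        rw [← norm_pow, hTp, Complex.norm_natCast] at h1
        linarith
      rw [Pool.Agent.Y230.PS.tr, if_neg hT1, if_pos hTp]
      have hn : n ≠ 0 := by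
        rintro rfl
        rw [pow_zero] at hTp
        exact hp1 hTp.symm
      have h2 : ¬ 1 < D.rootMultiplicity T := by
        rw [Polynomial.one_lt_rootMultiplicity_iff_isRoot hD0]
        rintro ⟨-, h2⟩
        rw [Polynomial.IsRoot.def, hD] at h2
        simp only [Polynomial.derivative_sub, Polynomial.derivative_X_pow,
          Polynomial.derivative_C, sub_zero, Polynomial.eval_mul, Polynomial.eval_C,
          Polynomial.eval_pow, Polynomial.eval_X] at h2
        rcases mul_eq_zero.1 h2 with h3 | h3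
        · exact hn (by exact_mod_cast h3)
        · exact pow_ne_zero _ hT h3
      exact_mod_cast not_lt.1 h2
    · have h1 : D.rootMultiplicity T = 0 := by
        apply Polynomial.rootMultiplicity_eq_zero
        rw [Polynomial.IsRoot, hD]
        simp only [Polynomial.eval_sub, Polynomial.eval_C, Polynomial.eval_X,
          Polynomial.eval_pow]
        exact fun h => hTp (sub_eq_zero.1 h)
      rw [h1]
      simp

theorem FR_prod {K : Type} (S : Finset K) (m : K → ℂ → ℕ∞) (F : K → ℝ → ℂ)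
    (h : ∀ k ∈ S, FR p (m k) (F k)) : FR p (fun T => ∑ k ∈ S, m k T) (fun s => ∏ k ∈ S, F k s) := by
  classical
  induction S using Finset.induction_on with
  | empty => simpa using FR_const (p := p) (fun _ => 0) 1
  | insert k t hk ih =>
    simp only [Finset.prod_insert hk, Finset.sum_insert hk]
    exact FR.mul (h k (Finset.mem_insert_self _ _)) (ih fun j hj => h j
      (Finset.mem_insert_of_mem hj)) fun T _ => le_rfl

/-- the number of the strict transforms with the pole `T` -/
noncomputable def cnt (p : ℕ) (a : τ → ℕ) (T : ℂ) : ℕ :=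
  open Classical in (Finset.univ.filter fun t => T ^ a t = (p : ℂ)).card

/-- **The zeta function of `h ∏_t (∑_j y_{t, j} f_{t, j}) ^ a_t`.** -/
theorem FR_formK (hκ : ∀ t, Nonempty (κ t)) (h : MvPolynomial σ ℚ_[p])
    (f : (t : τ) → κ t → MvPolynomial σ ℚ_[p]) (m m' : ℂ → ℕ∞)
    (H : ∀ T, 1 < ‖T‖ → m T + (cnt p a T : ℕ) ≤ m' T) (hF : FR p m (FF (genK a h f))) :
    FR p m' (FF (fun _ : Fin 1 => formK a h f)) := by
  classical
  refine (FR.mul hF (FR_prod (p := p) Finset.univ _ _ fun t _ => phi_FRa (p := p) (a t))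
    fun T hT => ?_).congr fun s hs => ?_
  · refine le_trans (le_of_eq ?_) (H T hT)
    congr 1
    unfold cnt
    rw [Finset.card_filter, Nat.cast_sum]
    refine Finset.sum_congr rfl fun t _ => ?_
    split_ifs <;> simp
  · rw [FF_formK a hκ h f hs]

end norms

end Pool.Agent.R852.PP
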