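import Pool.Agent.R852.PP.Div
import Pool.Agent.Y230.TH.Mlt

set_option autoImplicit false
set_option linter.unusedSectionVars false
set_option linter.unusedVariables false

/-! # The functional equations of `g ^ k` and of `g` -/

namespace Pool.Agent.R852.PP

open MvPolynomial Pool.Agent.W574.SM Pool.Agent.W574.HS Pool.Agent.W574.RO
open Pool.Agent.H628R4.TP (IsBFunction weylS)

variable {σ : Type}

theorem isB_of_pow (g : MvPolynomial σ ℂ) (hg : g ≠ 0) (k : ℕ) (hk : k ≠ 0) (b : Polynomial ℂ)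
    (hb : IsBFunction (g ^ k) b) :
    IsBFunction g (b.comp (Polynomial.C ((k : ℂ)⁻¹) * Polynomial.X)) := by
  classical
  obtain ⟨P, hP⟩ := hb
  have hkC : (k : ℂ) ≠ 0 := by exact_mod_cast hk
  -- multiplication by `g ^ (k - 1)`
  have hmul : ∀ q : MvPolynomial σ ℂ, LinearMap.mulLeft ℂ q ∈ weyl σ := by
    intro q
    induction q using MvPolynomial.induction_on with
    | C c =>
      have : LinearMap.mulLeft ℂ (C c : MvPolynomial σ ℂ) = algebraMap ℂ _ c := by
        ext1 i
        refine LinearMap.ext fun x => ?_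
        simp [C_mul', Algebra.algebraMap_eq_smul_one]
      rw [this]
      exact Subalgebra.algebraMap_mem _ _
    | add p q hp hq =>
      have : LinearMap.mulLeft ℂ (p + q) = LinearMap.mulLeft ℂ p + LinearMap.mulLeft ℂ q := by
        refine LinearMap.ext fun x => ?_
        simp [add_mul]
      rw [this]
      exact Subalgebra.add_mem _ hp hq
    | mul_X p i hp =>
      have : LinearMap.mulLeft ℂ (p * X i) = LinearMap.mulLeft ℂ p * LinearMap.mulLeft ℂ (X i) := by
        refine LinearMap.ext fun x => ?_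
        simp
      rw [this]
      exact Subalgebra.mul_mem _ hp (Algebra.subset_adjoin (Or.inl ⟨i, rfl⟩))
  set Q : ℕ → Module.End ℂ (MvPolynomial σ ℂ) := fun m =>
    ((k : ℂ)⁻¹) ^ m • ((P m : Module.End ℂ (MvPolynomial σ ℂ)) * LinearMap.mulLeft ℂ (g ^ (k - 1)))
    with hQdef
  have hQ : ∀ m, Q m ∈ weyl σ := fun m =>
    Subalgebra.smul_mem _ (Subalgebra.mul_mem _ (P m).2 (hmul _)) _
  set c : Polynomial ℂ := b.comp (Polynomial.C ((k : ℂ)⁻¹) * Polynomial.X) with hc
  set u : ℕ → MvPolynomial σ ℂ := fun n =>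
    (∑ m ∈ P.support, ((n : ℂ) ^ m) • Q m (g ^ (n + 1))) + (-1 : ℂ) • (c.eval (n : ℂ) • g ^ n) with hu
  have hfrg : Fr g (fun n => g ^ (n + 1)) := ⟨0, Polynomial.C g, fun n => by
    rw [Polynomial.eval_C]; ring⟩
  have hfr0 : Fr g (fun n => g ^ n) := ⟨0, 1, fun n => by
    rw [Polynomial.eval_one]; ring⟩
  have hfr : Fr g u := by
    refine fr_add (fr_sum _ _ _ fun m _ => ?_) ?_
    · have h1 := fr_pol (fr_weyl (Q m) (hQ m) _ hfrg) (Polynomial.X ^ m)
      simp only [Polynomial.eval_pow, Polynomial.eval_X] at h1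
      exact h1
    · have h1 := fr_pol (fr_pol hfr0 c) (Polynomial.C (-1))
      simp only [Polynomial.eval_C] at h1
      exact h1
  have hzero : ∀ n : ℕ, u (k * n) = 0 := by
    intro n
    have h1 := hP n
    have h2 : c.eval ((k * n : ℕ) : ℂ) = b.eval (n : ℂ) := by
      rw [hc, Polynomial.eval_comp, Polynomial.eval_mul, Polynomial.eval_C, Polynomial.eval_X]
      congr 1
      push_cast
      rw [inv_mul_cancel_left₀ hkC]
    have h3 : ∀ m : ℕ, (((k * n : ℕ) : ℂ) ^ m) • Q m (g ^ (k * n + 1)) =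
        ((n : ℂ) ^ m) • (P m : Module.End ℂ (MvPolynomial σ ℂ)) ((g ^ k) ^ (n + 1)) := by
      intro m
      have h4 : g ^ (k - 1) * g ^ (k * n + 1) = (g ^ k) ^ (n + 1) := by
        rw [← pow_add, ← pow_mul]
        congr 1
        have : 1 ≤ k := Nat.one_le_iff_ne_zero.2 hk
        rw [mul_add, mul_one]
        omega
      rw [hQdef]
      change _ • (((k : ℂ)⁻¹) ^ m • (P m : Module.End ℂ (MvPolynomial σ ℂ))
        (g ^ (k - 1) * g ^ (k * n + 1))) = _
      rw [h4, smul_smul, ← mul_pow]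
      congr 2
      push_cast
      rw [mul_comm (k : ℂ), mul_assoc, mul_inv_cancel₀ hkC, mul_one]
    rw [hu]
    beta_reduce
    rw [C_mul', Finsupp.sum] at h1
    rw [Finset.sum_congr rfl fun m _ => h3 m, h2, pow_mul, h1, neg_one_smul, add_neg_cancel]
  obtain ⟨M, ρ, e⟩ := hfr
  have hρ : ρ = 0 := by
    refine Polynomial.eq_zero_of_infinite_isRoot ρ ?_
    have hinj : Function.Injective (fun n : ℕ => ((k * n : ℕ) : MvPolynomial σ ℂ)) := by
      intro n n' h
      have h1 : k * n = k * n' := Nat.cast_injective (R := MvPolynomial σ ℂ) h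
      exact Nat.eq_of_mul_eq_mul_left (Nat.pos_of_ne_zero hk) h1
    refine (Set.infinite_range_of_injective hinj).mono ?_
    rintro _ ⟨n, rfl⟩
    have h1 := e (k * n)
    rw [hzero, mul_zero] at h1
    exact (mul_eq_zero.1 h1.symm).resolve_right (pow_ne_zero _ hg)
  have hall : ∀ n, u n = 0 := by
    intro n
    have h1 := e n
    rw [hρ, Polynomial.eval_zero, zero_mul] at h1
    exact (mul_eq_zero.1 h1).resolve_left (pow_ne_zero _ hg)
  refine ⟨∑ m ∈ P.support, Finsupp.single m ⟨Q m, hQ m⟩, fun s => ?_⟩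
  rw [← Finsupp.sum_finsetSum_index]
  · have h1 := hall s
    rw [hu] at h1
    beta_reduce at h1
    rw [neg_one_smul, ← sub_eq_add_neg, sub_eq_zero] at h1
    rw [C_mul', ← h1]
    refine Finset.sum_congr rfl fun m _ => ?_
    rw [Finsupp.sum_single_index (by
      rw [ZeroMemClass.coe_zero, LinearMap.zero_apply, smul_zero])]
  · intro a
    rw [ZeroMemClass.coe_zero, LinearMap.zero_apply, smul_zero]
  · intro a A B
    rw [← smul_add]
    rfl

theorem dvd_of_comp (b : Polynomial ℂ) (c : ℂ) (hc : c ≠ 0) (r : ℂ) (m : ℕ)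
    (h : (Polynomial.X - Polynomial.C (c * r)) ^ m ∣
      b.comp (Polynomial.C c⁻¹ * Polynomial.X)) :
    (Polynomial.X - Polynomial.C r) ^ m ∣ b := by
  obtain ⟨q, hq⟩ := h
  have h1 := congrArg (fun P : Polynomial ℂ => P.comp (Polynomial.C c * Polynomial.X)) hq
  beta_reduce at h1
  rw [Polynomial.comp_assoc, Polynomial.mul_comp, Polynomial.mul_comp, Polynomial.C_comp,
    Polynomial.X_comp, Polynomial.pow_comp, Polynomial.sub_comp, Polynomial.X_comp,
    Polynomial.C_comp, ← mul_assoc, ← Polynomial.C_mul, inv_mul_cancel₀ hc, Polynomial.C_1,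
    one_mul, Polynomial.comp_X, Polynomial.C_mul, ← mul_sub, mul_pow] at h1
  rw [h1]
  exact ⟨Polynomial.C c ^ m * q.comp (Polynomial.C c * Polynomial.X), by ring⟩

end Pool.Agent.R852.PP
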