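import Pool.Agent.R852.PP.Defs
import Pool.Agent.R852.PP.FE
import Pool.Agent.R852.PP.Pow
import Pool.Agent.R852.PP.PAdic
import Pool.Agent.Y230.TH.Inst

set_option autoImplicit false
set_option linter.unusedSectionVars false
set_option linter.unusedVariables false

/-! # The multiplicities -/

namespace Pool.Agent.R852.PP

open Polynomial Pool.Agent.Y230.PT Pool.Agent.Y230.PS Pool.Agent.Y230.TH
open Pool.Agent.W574.SM Pool.Agent.W574.RO Pool.Agent.W574.CN Pool.Agent.W574.HS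
open Pool.Agent.H628R4.TP (IsBFunction)

section phi

variable {τ : Type} [Fintype τ]

/-- the number of the strict transforms with the root `r` -/
noncomputable def cntR (a : τ → ℕ) (r : ℂ) : ℕ :=
  open Classical in (Finset.univ.filter fun t => ∃ i ∈ Finset.range (a t),
    (a t : ℂ) * r + ((i + 1 : ℕ) : ℂ) = 0).card

theorem cntR_dvd (a : τ → ℕ) (r : ℂ) : (X - C r) ^ cntR a r ∣ phiA a := by
  classical
  unfold cntR phiA
  rw [← Finset.prod_const, Finset.prod_filter]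
  refine Finset.prod_dvd_prod_of_dvd _ _ fun t _ => ?_
  split_ifs with h
  · obtain ⟨i, hi, h⟩ := h
    refine dvd_trans ?_ (Finset.dvd_prod_of_mem _ hi)
    rw [dvd_iff_isRoot, IsRoot.def, eval_add, eval_mul, eval_C, eval_X, eval_C]
    exact h
  · exact one_dvd _

variable {p : ℕ} [Fact p.Prime]

theorem rr_pow (T : ℂ) (n : ℕ) : rr p (T ^ n) = n * rr p T := by
  unfold rr
  rw [norm_pow, Real.log_pow]
  ring

theorem cnt_le (a : τ → ℕ) (T : ℂ) : cnt p a T ≤ cntR a ((rr p T : ℝ) : ℂ) := by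
  classical
  unfold cnt cntR
  refine Finset.card_le_card fun t ht => ?_
  rw [Finset.mem_filter] at ht ⊢
  refine ⟨ht.1, 0, ?_, ?_⟩
  · rw [Finset.mem_range]
    by_contra h0
    have h1 : a t = 0 := by omega
    have h2 := ht.2
    rw [h1, pow_zero] at h2
    have h3 : (p : ℂ) ≠ 1 := by exact_mod_cast (Fact.out : p.Prime).one_lt.ne'
    exact h3 h2.symm
  · have h1 := rr_pow (p := p) T (a t)
    rw [ht.2, rr_self] at h1
    have h2 : (a t : ℂ) * ((rr p T : ℝ) : ℂ) = -1 := by exact_mod_cast h1.symm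
    rw [h2]
    push_cast
    ring

theorem one_le_cntR (a : τ → ℕ) (t : τ) (ha : 0 < a t) : 1 ≤ cntR a (-1) := by
  classical
  unfold cntR
  refine Finset.card_pos.2 ⟨t, ?_⟩
  rw [Finset.mem_filter]
  refine ⟨Finset.mem_univ _, a t - 1, ?_, ?_⟩
  · rw [Finset.mem_range]
    omega
  · rw [Nat.sub_add_cancel ha]
    ring

theorem cnt_zero (a : τ → ℕ) (T : ℂ) (hT : ‖T‖ = p) (hne : T ≠ (p : ℂ)) : cnt p a T = 0 := by
  classical
  unfold cnt
  rw [Finset.card_eq_zero, Finset.filter_eq_empty_iff]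
  intro t _ h
  have hp : (1 : ℝ) < p := by exact_mod_cast (Fact.out : p.Prime).one_lt
  have h1 := congrArg (fun z : ℂ => ‖z‖) h
  beta_reduce at h1
  rw [norm_pow, hT, Complex.norm_natCast] at h1
  have h2 : a t = 1 := by
    have h3 : (p : ℝ) ^ a t = (p : ℝ) ^ 1 := by rw [h1, pow_one]
    exact pow_right_injective₀ (by linarith) (by linarith) h3
  rw [h2, pow_one] at h
  exact hne h

/-- the correction at `-1` -/
theorem cnt_dl (a : τ → ℕ) (t : τ) (ha : 0 < a t) (T : ℂ) (hT : 1 < ‖T‖) :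
    cnt p a T + dl ((rr p T : ℝ) : ℂ) ≤ cntR a ((rr p T : ℝ) : ℂ) + dp p T := by
  have h0 := cnt_le (p := p) a T
  by_cases hr : ((rr p T : ℝ) : ℂ) = -1
  · rw [dl_eq, if_pos hr]
    by_cases hTp : T = (p : ℂ)
    · rw [dp_eq, if_pos hTp]
      omega
    · rw [dp_eq, if_neg hTp, cnt_zero a T (rr_norm T hT hr) hTp, hr]
      have := one_le_cntR a t ha
      omega
  · rw [dl_eq, if_neg hr]
    omega

theorem dl_le_cntR (a : τ → ℕ) (t : τ) (ha : 0 < a t) (r : ℂ) : dl r ≤ cntR a r := by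
  rw [dl_eq]
  split_ifs with h
  · rw [h]
    exact one_le_cntR a t ha
  · exact Nat.zero_le _

end phi

section fam

variable {σ : Type} [Fintype σ] {m : ℕ} {r : Fin m → ℕ} (a : Fin m → ℕ) (h : MvPolynomial σ ℚ)
  (f : (t : Fin m) → Fin (r t) → MvPolynomial σ ℚ)

theorem genQ_ne (ha : ∀ t, 0 < a t) (hA : ∃ J, genP a h f J ≠ 0) :
    h ≠ 0 ∧ (∀ t, ∃ j, f t j ≠ 0) := by
  obtain ⟨J, hJ⟩ := hA
  unfold genP at hJ
  refine ⟨left_ne_zero_of_mul hJ, fun t => ?_⟩
  exact ⟨J ⟨t, ⟨0, ha t⟩⟩, (Finset.prod_ne_zero_iff.1 (right_ne_zero_of_mul hJ))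
    ⟨t, ⟨0, ha t⟩⟩ (Finset.mem_univ _)⟩

theorem formP_C : MvPolynomial.map (algebraMap ℚ ℂ) (formP a h f) =
    form a (MvPolynomial.map (algebraMap ℚ ℂ) h)
      (fun t j => MvPolynomial.map (algebraMap ℚ ℂ) (f t j)) := by
  unfold formP form Pool.Agent.TH192.DT.powProd Pool.Agent.TH192.DT.blockForm
  rw [map_mul, MvPolynomial.map_rename, map_prod]
  congr 1
  refine Finset.prod_congr rfl fun t _ => ?_
  rw [map_pow, map_sum]
  congr 1
  refine Finset.sum_congr rfl fun j _ => ?_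
  rw [map_mul, MvPolynomial.map_X, MvPolynomial.map_rename]

theorem genP_C (J : (q : Σ t, Fin (a t)) → Fin (r q.1)) :
    MvPolynomial.map (algebraMap ℚ ℂ) (genP a h f J) =
      gen a (MvPolynomial.map (algebraMap ℚ ℂ) h)
        (fun t j => MvPolynomial.map (algebraMap ℚ ℂ) (f t j)) J := by
  unfold genP gen Pool.Agent.TH192.DT.prodFam
  rw [map_mul, map_prod]

theorem formQ_toC : (formQ a h f).toC = fun _ : Fin 1 =>
    form a (MvPolynomial.map (algebraMap ℚ ℂ) h)
      (fun t j => MvPolynomial.map (algebraMap ℚ ℂ) (f t j)) :=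
  funext fun _ => formP_C a h f

theorem genQ_toC : (genQ a h f).toC = gen a (MvPolynomial.map (algebraMap ℚ ℂ) h)
      (fun t j => MvPolynomial.map (algebraMap ℚ ℂ) (f t j)) :=
  funext fun J => genP_C a h f J

theorem formP_ne (hA : ∃ J, genP a h f J ≠ 0) (ha : ∀ t, 0 < a t) : formP a h f ≠ 0 := by
  classical
  obtain ⟨hh, hf⟩ := genQ_ne a h f ha hA
  unfold formP
  refine mul_ne_zero (fun h0 => hh ?_) (Finset.prod_ne_zero_iff.2 fun t _ => pow_ne_zero _ ?_)
  · exact MvPolynomial.rename_injective _ Sum.inr_injective (by rw [h0, map_zero])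
  · intro h0
    obtain ⟨j0, hj0⟩ := hf t
    apply hj0
    set ε : (Σ t, Fin (r t)) ⊕ σ → MvPolynomial σ ℚ :=
      Sum.elim (fun q => if q = ⟨t, j0⟩ then 1 else 0) MvPolynomial.X with hε
    have h2 := congrArg (MvPolynomial.aeval ε :
      MvPolynomial ((Σ t, Fin (r t)) ⊕ σ) ℚ → MvPolynomial σ ℚ) h0
    rw [map_zero, map_sum] at h2
    rw [← h2, Finset.sum_eq_single j0]
    · rw [map_mul, MvPolynomial.aeval_X, MvPolynomial.aeval_rename, hε, Sum.elim_inl, if_pos rfl,
        Sum.elim_comp_inr, MvPolynomial.aeval_X_left_apply, one_mul]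
    · intro j _ hj
      rw [map_mul, MvPolynomial.aeval_X, hε, Sum.elim_inl, if_neg, zero_mul]
      intro h3
      exact hj (eq_of_heq (Sigma.mk.inj h3).2)
    · intro h
      exact absurd (Finset.mem_univ j0) h

/-- **The functional equations of a product of powers.** -/
theorem FK_form (hm : 0 < m) (ha : ∀ t, 0 < a t) (hA : ∃ J, genP a h f J ≠ 0) (z : ℂ)
    (n : ℕ) (hn : FK (genQ a h f) z n) : FK (formQ a h f) z (n + cntR a z) := by
  classical
  intro b hb
  rw [formQ_toC] at hb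
  obtain ⟨hh, hf⟩ := genQ_ne a h f ha hA
  have hC : ∀ g : MvPolynomial σ ℚ, g ≠ 0 → MvPolynomial.map (algebraMap ℚ ℂ) g ≠ 0 :=
    fun g hg h0 => hg (MvPolynomial.map_injective _ (algebraMap ℚ ℂ).injective (by
      rw [map_zero]; exact h0))
  obtain ⟨b', e, h2⟩ := functionalEq_strong a (MvPolynomial.map (algebraMap ℚ ℂ) h)
    (fun t j => MvPolynomial.map (algebraMap ℚ ℂ) (f t j)) (hC h hh)
    (fun t => (hf t).imp fun j hj => hC _ hj) ⟨0, hm⟩ (ha _).ne' b
    (Pool.Agent.Y229.isB_of_single _ b hb)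
  have h3 := hn b' (by rw [genQ_toC]; exact h2)
  rw [e, pow_add]
  rw [mul_comm (phiA a)]
  exact mul_dvd_mul h3 (cntR_dvd a z)

end fam

end Pool.Agent.R852.PP
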