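import Pool.Agent.Y230.TH.Defs

set_option autoImplicit false

/-! # The class of polynomials closed under products of powers of forms over ideals -/

namespace Pool.Agent.R852.PP

open MvPolynomial Pool.Agent.Y230.PS Pool.Agent.Y230.TH

/-- The generator `h ∏_t ∏_{i < a_t} f_{t, J(t, i)}` of the ideal `h ∏_t (f_{t, j})_j ^ a_t`. -/
noncomputable def genP {σ : Type} {m : ℕ} {r : Fin m → ℕ} (a : Fin m → ℕ)
    (h : MvPolynomial σ ℚ) (f : (t : Fin m) → Fin (r t) → MvPolynomial σ ℚ)
    (J : (q : Σ t, Fin (a t)) → Fin (r q.1)) : MvPolynomial σ ℚ := h * ∏ q, f q.1 (J q)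

/-- The polynomial `h(x) ∏_t (∑_j y_{t, j} f_{t, j}(x)) ^ a_t`, with further variables
`y_{t, j}`. -/
noncomputable def formP {σ : Type} {m : ℕ} {r : Fin m → ℕ} (a : Fin m → ℕ)
    (h : MvPolynomial σ ℚ) (f : (t : Fin m) → Fin (r t) → MvPolynomial σ ℚ) :
    MvPolynomial ((Σ t, Fin (r t)) ⊕ σ) ℚ :=
  rename Sum.inr h * ∏ t, (∑ j, X (Sum.inl ⟨t, j⟩) * rename Sum.inr (f t j)) ^ a t

/-- The ideal `h ∏_t (f_{t, j})_j ^ a_t`. -/
@[reducible] noncomputable def genQ {σ : Type} [Fintype σ] {m : ℕ} {r : Fin m → ℕ}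
    (a : Fin m → ℕ) (h : MvPolynomial σ ℚ) (f : (t : Fin m) → Fin (r t) → MvPolynomial σ ℚ) :
    FamQ := ⟨σ, (q : Σ t, Fin (a t)) → Fin (r q.1), genP a h f⟩

/-- The hypersurface `h(x) ∏_t (∑_j y_{t, j} f_{t, j}(x)) ^ a_t = 0`. -/
@[reducible] noncomputable def formQ {σ : Type} [Fintype σ] {m : ℕ} {r : Fin m → ℕ}
    (a : Fin m → ℕ) (h : MvPolynomial σ ℚ) (f : (t : Fin m) → Fin (r t) → MvPolynomial σ ℚ) :
    FamQ := ⟨(Σ t, Fin (r t)) ⊕ σ, Fin 1, fun _ => formP a h f⟩

/-- Two classes of ideals, given by generators: `PTS strict false A` for ideals and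
`PTS strict true A` for principal ideals (hypersurfaces). They are the smallest classes with the
following properties. -/
inductive PTS (strict : Bool) : Bool → FamQ → Prop
  /-- the ideals in `Good` -/
  | good (A : FamQ) (h : Good strict A) : PTS strict false A
  /-- the monomial ideals, in any number of variables -/
  | mono (σ ι : Type) [Fintype σ] [Fintype ι] [Nonempty ι] (v : ι → σ →₀ ℕ) :
      PTS strict false ⟨σ, ι, fun j => monomial (v j) 1⟩
  /-- the plane curves -/
  | curve (g : MvPolynomial (Fin 2) ℚ) (hg : g ≠ 0) :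
      PTS strict true ⟨Fin 2, Fin 1, fun _ => g⟩
  /-- a hypersurface is a principal ideal -/
  | hyp (A : FamQ) (h : PTS strict true A) : PTS strict false A
  /-- the powers of a hypersurface are principal ideals -/
  | pow (σ : Type) [Fintype σ] (g : MvPolynomial σ ℚ) (k : ℕ) (hk : k ≠ 0)
      (h : PTS strict true ⟨σ, Fin 1, fun _ => g⟩) : PTS strict false ⟨σ, Fin 1, fun _ => g ^ k⟩
  /-- the sum of two ideals in disjoint sets of variables -/
  | sum (A B : FamQ) (hA : PTS strict false A) (hB : PTS strict false B) :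
      PTS strict false (A.sum B)
  /-- the product of two ideals, or of two polynomials, in disjoint sets of variables -/
  | mul (c : Bool) (A B : FamQ) (hA : PTS strict c A) (hB : PTS strict c B) :
      PTS strict c (A.mul B)
  /-- the polynomial `∑ y_j f_j(x)` -/
  | univ (A : FamQ) (hA : PTS strict false A) : PTS strict true A.univ
  /-- the products of powers `h(x) ∏_t (∑_j y_{t, j} f_{t, j}(x)) ^ a_t`, if the ideal
  `h ∏_t (f_{t, j})_j ^ a_t` is in the class -/
  | form (σ : Type) [Fintype σ] (m : ℕ) (r a : Fin m → ℕ) (hm : 0 < m) (ha : ∀ t, 0 < a t)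
      (h : MvPolynomial σ ℚ)
      (f : (t : Fin m) → Fin (r t) → MvPolynomial σ ℚ)
      (hA : PTS strict false (genQ a h f)) : PTS strict true (formQ a h f)
  /-- the Thom-Sebastiani sum `∑ y_j f_j(x) + g(z)` -/
  | ts (A : FamQ) (τ : Type) [Fintype τ] (g : MvPolynomial τ ℚ) (hA : PTS strict false A)
      (hg : PTS strict true ⟨τ, Fin 1, fun _ => g⟩) : PTS strict true (tsum A τ g)
  /-- variables which do not occur may be dropped -/
  | drop (σ κ : Type) [Fintype σ] [Fintype κ] (g : MvPolynomial σ ℚ)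
      (h : PTS strict true ⟨σ ⊕ κ, Fin 1, fun _ => rename Sum.inl g⟩) :
      PTS strict true ⟨σ, Fin 1, fun _ => g⟩
  /-- the variables and the generators may be indexed differently -/
  | equiv (c : Bool) (A B : FamQ) (i : A.σ ≃ B.σ) (k : A.ι ≃ B.ι)
      (h : ∀ j, B.f (k j) = rename i (A.f j)) (hA : PTS strict c A) : PTS strict c B

end Pool.Agent.R852.PP
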