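import Pool.Agent.Y230.PS.Fam2
import Pool.Agent.W195.PZ.Null

set_option autoImplicit false
set_option linter.unusedSectionVars false
set_option linter.unusedVariables false

/-! # Rational integrals have no poles in the closed unit disc -/

namespace Pool.Agent.R852.PP

open MeasureTheory Polynomial Pool.Agent.W427.SMC Pool.Agent.Y230.PT Pool.Agent.Y230.PS
open scoped ENNReal

attribute [local instance] msZ bsZ

section series

/-- convergence of a power series at a point -/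
def CvT (T : ℂ) (F : PowerSeries ℂ) (S : ℂ) : Prop :=
  HasSum (fun m => PowerSeries.coeff m F * T ^ m) S

variable {T : ℂ}

theorem CvT.add {F G : PowerSeries ℂ} {S R : ℂ} (hF : CvT T F S) (hG : CvT T G R) :
    CvT T (F + G) (S + R) := by
  have := HasSum.add hF hG
  unfold CvT
  simp only [map_add, add_mul]
  exact this

theorem CvT.C_mul {F : PowerSeries ℂ} {S : ℂ} (hF : CvT T F S) (a : ℂ) :
    CvT T (PowerSeries.C a * F) (a * S) := by
  unfold CvT
  simp only [PowerSeries.coeff_C_mul, mul_assoc]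
  exact HasSum.mul_left _ hF

theorem CvT.X_mul {F : PowerSeries ℂ} {S : ℂ} (hF : CvT T F S) :
    CvT T (PowerSeries.X * F) (T * S) := by
  unfold CvT
  rw [← hasSum_nat_add_iff' 1]
  simp only [Finset.range_one, Finset.sum_singleton, PowerSeries.coeff_zero_X_mul, zero_mul,
    sub_zero, PowerSeries.coeff_succ_X_mul]
  have h2 := HasSum.mul_left T hF
  have h3 : (fun m => PowerSeries.coeff m F * T ^ (m + 1)) =
      fun m => T * (PowerSeries.coeff m F * T ^ m) := by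
    funext m; ring
  rw [h3]
  exact h2

theorem CvT.poly_mul {F : PowerSeries ℂ} {S : ℂ} (hF : CvT T F S) (D : ℂ[X]) :
    CvT T ((D : PowerSeries ℂ) * F) (D.eval T * S) := by
  induction D using Polynomial.induction_on with
  | C a =>
    rw [Polynomial.coe_C]
    simpa using hF.C_mul a
  | add p q hp hq =>
    rw [Polynomial.coe_add, add_mul, eval_add, add_mul]
    exact hp.add hq
  | monomial n a h =>
    have h1 : ((C a * X ^ (n + 1) : ℂ[X]) : PowerSeries ℂ) * F =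
        PowerSeries.X * (((C a * X ^ n : ℂ[X]) : PowerSeries ℂ) * F) := by
      simp only [Polynomial.coe_mul, Polynomial.coe_C, Polynomial.coe_pow, Polynomial.coe_X]
      ring
    rw [h1]
    have h2 := h.X_mul
    simp only [eval_mul, eval_C, eval_pow, eval_X] at h2 ⊢
    have h3 : a * T ^ (n + 1) * S = T * (a * T ^ n * S) := by ring
    rw [h3]
    exact h2

theorem CvT.one : CvT T 1 1 := by
  unfold CvT
  have h : (fun m => PowerSeries.coeff m (1 : PowerSeries ℂ) * T ^ m) =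
      fun m => if m = 0 then 1 else 0 := by
    funext m
    rw [PowerSeries.coeff_one]
    split_ifs with h
    · rw [h]
      simp
    · simp
  rw [h]
  exact hasSum_ite_eq 0 1

theorem CvT.poly (D : ℂ[X]) : CvT T (D : PowerSeries ℂ) (D.eval T) := by
  have := (CvT.one (T := T)).poly_mul D
  simpa using this

theorem reduce (c : PowerSeries ℂ) (S : ℂ) (hc : CvT T c S) : ∀ (n : ℕ) (D P : ℂ[X]),
    D.natDegree = n → D ≠ 0 → (D : PowerSeries ℂ) * c = (P : PowerSeries ℂ) →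
    ∃ D' P' : ℂ[X], D'.eval T ≠ 0 ∧ (D' : PowerSeries ℂ) * c = (P' : PowerSeries ℂ) := by
  intro n
  induction n with
  | zero =>
    intro D P hn hD h
    refine ⟨D, P, ?_, h⟩
    obtain ⟨a, rfl⟩ := natDegree_eq_zero.1 hn
    rw [eval_C]
    rintro rfl
    exact hD C_0
  | succ n ih =>
    intro D P hn hD h
    by_cases h0 : D.eval T = 0
    · have h1 := hc.poly_mul D
      rw [h, h0, zero_mul] at h1
      have hP : P.eval T = 0 := HasSum.unique (CvT.poly P) h1
      obtain ⟨D1, rfl⟩ := dvd_iff_isRoot.2 h0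
      obtain ⟨P1, rfl⟩ := dvd_iff_isRoot.2 hP
      have hX : (X - C T : ℂ[X]) ≠ 0 := X_sub_C_ne_zero T
      have hD1 : D1 ≠ 0 := right_ne_zero_of_mul hD
      refine ih D1 P1 ?_ hD1 ?_
      · rw [natDegree_mul hX hD1, natDegree_X_sub_C] at hn
        omega
      · have hX' : ((X - C T : ℂ[X]) : PowerSeries ℂ) ≠ 0 := by
          intro h2
          exact hX (Polynomial.coe_injective ℂ (by rw [h2, Polynomial.coe_zero]))
        apply mul_left_cancel₀ hX'
        rw [← mul_assoc, ← Polynomial.coe_mul, ← Polynomial.coe_mul]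
        exact h
    · exact ⟨D, P, h0, h⟩

end series

variable {p : ℕ} [Fact p.Prime]

section abs

variable {Ω : Type} [MeasurableSpace Ω] (μ : Measure Ω) [IsProbabilityMeasure μ] (ρ : Ω → ℝ)

/-- the volume of the set `ρ = p ^ (-m)` -/
noncomputable def cv (p : ℕ) (m : ℕ) : ℝ := (μ {x | ρ x = ((p : ℝ)⁻¹) ^ m}).toReal

theorem cv_nonneg (m : ℕ) : 0 ≤ cv μ ρ p m := ENNReal.toReal_nonneg

theorem q_pos : (0 : ℝ) < (p : ℝ)⁻¹ := inv_pos.2 (by exact_mod_cast (Fact.out : p.Prime).pos)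

theorem q_lt : (p : ℝ)⁻¹ < 1 := inv_lt_one_of_one_lt₀ (by
  exact_mod_cast (Fact.out : p.Prime).one_lt)

theorem q_inj : Function.Injective (fun m : ℕ => ((p : ℝ)⁻¹) ^ m) :=
  pow_right_injective₀ q_pos q_lt.ne

theorem tr'_q (s : ℝ) (m : ℕ) : (((p : ℝ)⁻¹) ^ m) ^ s = tr' p s ^ m := by
  have hp : (0 : ℝ) ≤ (p : ℝ)⁻¹ := q_pos.le
  unfold tr'
  rw [← Real.rpow_natCast, ← Real.rpow_mul hp, mul_comm (m : ℝ) s, Real.rpow_mul hp,
    Real.rpow_natCast, Real.inv_rpow (Nat.cast_nonneg _), Real.rpow_neg (Nat.cast_nonneg _)]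

theorem lint_sum (hm : Measurable ρ) (hv : ∀ x, Val p (ρ x)) (hnull : μ {x | ρ x = 0} = 0)
    (s : ℝ) : ∫⁻ x, ENNReal.ofReal (ρ x ^ s) ∂μ =
      ∑' m : ℕ, ENNReal.ofReal (tr' p s ^ m) * μ {x | ρ x = ((p : ℝ)⁻¹) ^ m} := by
  classical
  have hmeas : ∀ m : ℕ, MeasurableSet {x | ρ x = ((p : ℝ)⁻¹) ^ m} := fun m =>
    measurableSet_eq_fun hm measurable_const
  have h1 : ∀ m : ℕ, ENNReal.ofReal (tr' p s ^ m) * μ {x | ρ x = ((p : ℝ)⁻¹) ^ m} =
      ∫⁻ x, Set.indicator {x | ρ x = ((p : ℝ)⁻¹) ^ m} (fun _ => ENNReal.ofReal (tr' p s ^ m)) x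
        ∂μ := fun m => (lintegral_indicator_const (hmeas m) _).symm
  simp only [h1]
  rw [← lintegral_tsum fun m => (measurable_const.indicator (hmeas m)).aemeasurable]
  refine lintegral_congr_ae ?_
  have h2 : ∀ᵐ x ∂μ, ρ x ≠ 0 := by
    rw [ae_iff]
    simpa using hnull
  filter_upwards [h2] with x hx
  rcases hv x with h | ⟨k, hk⟩
  · exact absurd h hx
  · rw [tsum_eq_single k]
    · rw [Set.indicator_of_mem (by exact hk), hk, tr'_q]
    · intro m hm
      rw [Set.indicator_of_notMem]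
      intro h
      have h3 : ρ x = ((p : ℝ)⁻¹) ^ m := h
      rw [hk] at h3
      exact hm (q_inj h3).symm

theorem cv_sum (hm : Measurable ρ) (hv : ∀ x, Val p (ρ x)) (hnull : μ {x | ρ x = 0} = 0) :
    Summable (cv μ ρ p) := by
  have h1 := lint_sum μ ρ hm hv hnull 0
  have h0 : tr' p 0 = 1 := by simp [tr']
  simp only [h0, one_pow, ENNReal.ofReal_one, one_mul, Real.rpow_zero, lintegral_const,
    measure_univ, mul_one] at h1
  exact ENNReal.summable_toReal (by rw [← h1]; exact ENNReal.one_ne_top)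

theorem cv_hasSum (hm : Measurable ρ) (hv : ∀ x, Val p (ρ x)) (hnull : μ {x | ρ x = 0} = 0)
    (s : ℝ) (hs : 0 ≤ s) :
    HasSum (fun m => (cv μ ρ p m : ℂ) * ((tr' p s : ℝ) : ℂ) ^ m) (FZ μ ρ s) := by
  have hle := tr'_le_one' (p := p) hs
  have hpos := tr'_pos p s
  have hsm : Summable (fun m => cv μ ρ p m * tr' p s ^ m) :=
    Summable.of_nonneg_of_le (fun m => mul_nonneg ENNReal.toReal_nonneg (pow_nonneg hpos.le m))
      (fun m => mul_le_of_le_one_right ENNReal.toReal_nonneg (pow_le_one₀ hpos.le hle))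
      (cv_sum μ ρ hm hv hnull)
  have h1 : FZ μ ρ s = ((∑' m, cv μ ρ p m * tr' p s ^ m : ℝ) : ℂ) := by
    unfold FZ
    rw [lint_sum μ ρ hm hv hnull s, ENNReal.tsum_toReal_eq]
    · congr 1
      refine tsum_congr fun m => ?_
      rw [ENNReal.toReal_mul, ENNReal.toReal_ofReal (pow_nonneg hpos.le m), mul_comm]
      rfl
    · intro m
      exact ENNReal.mul_ne_top ENNReal.ofReal_ne_top (measure_ne_top _ _)
  rw [h1]
  have h2 := (Complex.hasSum_ofReal.2 hsm.hasSum)
  push_cast at h2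
  convert h2 using 2
  rw [Complex.ofReal_tsum]
  push_cast
  rfl

/-- **No poles in the closed unit disc.** -/
theorem disc (hm : Measurable ρ) (hv : ∀ x, Val p (ρ x)) (hnull : μ {x | ρ x = 0} = 0)
    (D P : ℂ[X]) (hD : D ≠ 0) (h : ∀ s : ℝ, 0 ≤ s →
      D.eval ((tr' p s : ℝ) : ℂ) * FZ μ ρ s = P.eval ((tr' p s : ℝ) : ℂ)) (T0 : ℂ)
    (hT0 : ‖T0‖ ≤ 1) : Reg p T0 0 (FZ μ ρ) := by
  set c : PowerSeries ℂ := ser (fun m => (cv μ ρ p m : ℂ)) with hc
  have hcf : ∀ m, PowerSeries.coeff m c = (cv μ ρ p m : ℂ) := fun m => coeff_ser _ m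
  have hs := cv_sum μ ρ hm hv hnull
  have hconv : Conv c (fun t => ∑' m : ℕ, (cv μ ρ p m : ℂ) * (t : ℂ) ^ m) := by
    intro t h0 h1
    have h2 : Summable (fun m => ‖PowerSeries.coeff m c‖ * t ^ m) := by
      refine Summable.of_nonneg_of_le (fun m => by positivity) (fun m => ?_) hs
      rw [hcf, Complex.norm_real, Real.norm_of_nonneg (cv_nonneg μ ρ m)]
      exact mul_le_of_le_one_right ENNReal.toReal_nonneg (pow_le_one₀ h0.le h1.le)
    refine ⟨h2, ?_⟩
    have h3 : Summable (fun m => PowerSeries.coeff m c * (t : ℂ) ^ m) := by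
      refine Summable.of_norm (h2.congr fun m => ?_)
      rw [norm_mul, norm_pow, Complex.norm_real, Real.norm_of_nonneg h0.le]
    have h4 := h3.hasSum
    simp only [hcf] at h4 ⊢
    exact h4
  have hDP : (D : PowerSeries ℂ) * c = (P : PowerSeries ℂ) := by
    rw [← sub_eq_zero]
    refine Conv.zero_of ?_
    have h4 := (hconv.poly_mul D).add ((Conv.poly P).C_mul (-1))
    have h5 : ((D : ℂ[X]) : PowerSeries ℂ) * c - (P : PowerSeries ℂ) =
        ((D : ℂ[X]) : PowerSeries ℂ) * c + PowerSeries.C (-1) * (P : PowerSeries ℂ) := by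
      rw [map_neg, map_one]; ring
    rw [h5]
    refine h4.congr fun t h0 h1' => ?_
    obtain ⟨s, hs', rfl⟩ := exists_s p t h0 h1'
    have h7 := h s hs'.le
    have h8 := (cv_hasSum μ ρ hm hv hnull s hs'.le).tsum_eq
    rw [h8]
    linear_combination h7
  have hcv : CvT T0 c (∑' m, (cv μ ρ p m : ℂ) * T0 ^ m) := by
    unfold CvT
    simp only [hcf]
    refine Summable.hasSum (Summable.of_norm (Summable.of_nonneg_of_le (fun m => norm_nonneg _)
      (fun m => ?_) hs))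
    rw [norm_mul, norm_pow, Complex.norm_real, Real.norm_of_nonneg (cv_nonneg μ ρ m)]
    exact mul_le_of_le_one_right ENNReal.toReal_nonneg (pow_le_one₀ (norm_nonneg _) hT0)
  obtain ⟨D', P', hD', hDP'⟩ := reduce c _ hcv _ D P rfl hD hDP
  refine ⟨D', P', hD', fun s hs' => ?_⟩
  rw [pow_zero, one_mul]
  have h9 : CvT ((tr' p s : ℝ) : ℂ) c (FZ μ ρ s) := by
    unfold CvT
    simp only [hcf]
    exact cv_hasSum μ ρ hm hv hnull s hs'
  have h10 := h9.poly_mul D'
  rw [hDP'] at h10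
  exact HasSum.unique h10 (CvT.poly P')

end abs

section fam

variable {σ ι : Type} [Fintype σ] [Fintype ι]

theorem disc_fam (f : ι → MvPolynomial σ ℚ_[p])
    (hnull : (Measure.pi fun _ : σ => mu p) {x | sz f x = 0} = 0) (D P : ℂ[X]) (hD : D ≠ 0)
    (h : ∀ s : ℝ, 0 ≤ s →
      D.eval ((tr' p s : ℝ) : ℂ) * FF f s = P.eval ((tr' p s : ℝ) : ℂ)) (T0 : ℂ)
    (hT0 : T0 ≠ 0) (hT1 : ‖T0‖ ≤ 1) : Reg p T0 0 (FF f) := by
  obtain ⟨K, hK⟩ := sz_int f
  have hq : ((p : ℝ)⁻¹) ^ K ≠ 0 := (pow_pos (q_pos (p := p)) K).ne'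
  have h1 : Reg p T0 0 (FZ (Measure.pi fun _ : σ => mu p)
      (fun x => ((p : ℝ)⁻¹) ^ K * sz f x)) := by
    refine disc _ _ ((sz_meas f).const_mul _) (hK K le_rfl) ?_ D (X ^ K * P) hD
      (fun s hs => ?_) T0 hT1
    · have e : {x | ((p : ℝ)⁻¹) ^ K * sz f x = 0} = {x | sz f x = 0} := by
        ext x
        simp only [Set.mem_ofPred_eq]
        exact ⟨fun h => (mul_eq_zero.1 h).resolve_left hq, fun h => by rw [h, mul_zero]⟩
      rw [e]
      exact hnull
    · rw [FZ_scale (Measure.pi fun _ : σ => mu p) (sz f) (sz_nonneg f) K s, eval_mul, eval_pow,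
        eval_X, ← h s hs]
      unfold FF
      ring
  refine (((Reg.tinv hT0).pow K).mul0 h1).congr fun s hs => ?_
  rw [FZ_scale (Measure.pi fun _ : σ => mu p) (sz f) (sz_nonneg f) K s, ← mul_assoc, ← mul_pow,
    inv_mul_cancel₀ (tr_ne s), one_pow, one_mul]
  rfl

/-- It is enough to consider the poles outside of the closed unit disc. -/
theorem FR_of_out (f : ι → MvPolynomial σ ℚ_[p])
    (hnull : (Measure.pi fun _ : σ => mu p) {x | sz f x = 0} = 0) (m : ℂ → ℕ∞)
    (h : ∀ T0 : ℂ, 1 < ‖T0‖ → ∃ D P : ℂ[X], D ≠ 0 ∧ (D.rootMultiplicity T0 : ℕ∞) ≤ m T0 ∧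
      ∀ s : ℝ, 0 ≤ s → D.eval ((tr' p s : ℝ) : ℂ) * FF f s = P.eval ((tr' p s : ℝ) : ℂ)) :
    FR p m (FF f) := by
  intro T0 hT0
  by_cases hT1 : ‖T0‖ ≤ 1
  · obtain ⟨D, P, hD, -, h1⟩ := h 2 (by norm_num)
    exact ⟨0, by simp, disc_fam f hnull D P hD h1 T0 hT0 hT1⟩
  · obtain ⟨D, P, hD, h2, h1⟩ := h T0 (not_le.1 hT1)
    refine ⟨D.rootMultiplicity T0, ?_, ?_⟩
    · rw [Pool.Agent.Y230.PS.tr, if_neg hT1]
      exact h2
    · obtain ⟨Q, hQ, hnd⟩ := exists_eq_pow_rootMultiplicity_mul_and_not_dvd D hD T0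
      refine ⟨Q, P, fun h0 => hnd (dvd_iff_isRoot.2 h0), fun s hs => ?_⟩
      rw [← hQ]
      exact h1 s hs

end fam

end Pool.Agent.R852.PP
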