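import Pool.Agent.TH192.DT.Pow
import Pool.Agent.W574.RO.Prod

set_option autoImplicit false
set_option linter.unusedSectionVars false
set_option linter.unusedVariables false

/-! Products of powers of forms `∑ y_{t, j} f_{t, j}`: the factors of the functional equation which
belong to the strict transforms can be divided out. -/

namespace Pool.Agent.R852.PP

open MvPolynomial Pool.Agent.W574.SM Pool.Agent.W574.HS Pool.Agent.W574.LM Pool.Agent.W574.RO
open Pool.Agent.TH192.DT

section Div

variable {σ ι : Type} [Fintype ι] [DecidableEq ι]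

theorem fr_zero (G : MvPolynomial σ ℂ) : Fr G (fun _ => 0) := ⟨0, 0, fun N => by simp⟩

theorem fr_sum {K : Type} (G : MvPolynomial σ ℂ) (s : Finset K) (u : K → ℕ → MvPolynomial σ ℂ)
    (h : ∀ k ∈ s, Fr G (u k)) : Fr G (fun N => ∑ k ∈ s, u k N) := by
  classical
  induction s using Finset.induction_on with
  | empty => simpa using fr_zero G
  | insert k s hk ih =>
    have := fr_add (h k (Finset.mem_insert_self k s))
      (ih fun l hl => h l (Finset.mem_insert_of_mem hl))
    simpa [Finset.sum_insert hk] using this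

/-- multiplication by a polynomial in `N` -/
theorem fr_pol {G : MvPolynomial σ ℂ} {u : ℕ → MvPolynomial σ ℂ} (h : Fr G u) (q : Polynomial ℂ) :
    Fr G (fun N => q.eval (N : ℂ) • u N) := by
  obtain ⟨m, ρ, e⟩ := h
  refine ⟨m, q.map C * ρ, fun N => ?_⟩
  rw [Polynomial.eval_mul, mul_smul_comm, e, Polynomial.eval_map, Polynomial.eval₂_at_natCast,
    ← C_mul', mul_assoc]

theorem evN_single (j0 : ι) (p : MvPolynomial ι ℂ) :
    ∃ q : Polynomial ℂ, ∀ n : ℕ, evN (Finsupp.single j0 n) p = q.eval (n : ℂ) := by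
  refine ⟨aeval (fun j => if j = j0 then (Polynomial.X : Polynomial ℂ) else 0) p, fun n => ?_⟩
  unfold evN
  induction p using MvPolynomial.induction_on with
  | C a => simp
  | add p q hp hq => rw [map_add, map_add, hp, hq, Polynomial.eval_add]
  | mul_X p j hp =>
    rw [map_mul, map_mul, hp, Polynomial.eval_mul, eval_X, aeval_X]
    by_cases hj : j = j0
    · subst hj
      simp
    · rw [if_neg hj, Finsupp.single_eq_of_ne hj]
      simp

/-- one term -/
theorem fr_term (g : ι → MvPolynomial σ ℂ) (j0 : ι) (c : ι → ℤ) :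
    Fr (g j0) (fun n => (fall c (Finsupp.single j0 n) : ℂ) •
      (if ∑ j, sh (Finsupp.single j0 n) c j = n + 1 then
        ∏ j, g j ^ (sh (Finsupp.single j0 n) c) j else 0)) := by
  classical
  by_cases hc : ∀ j, j ≠ j0 → 0 ≤ c j
  · by_cases hs : ∑ j, c j = 1
    · set M : ℕ := (-c j0).toNat with hM
      set P : ℕ := (c j0).toNat with hP
      set B : MvPolynomial σ ℂ := ∏ j ∈ Finset.univ.erase j0, g j ^ (c j).toNat with hB
      refine ⟨M, (descPochhammer ℂ M).map C * Polynomial.C (g j0 ^ P * B), fun n => ?_⟩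
      have hfall : fall c (Finsupp.single j0 n) = n.descFactorial M := by
        unfold fall
        rw [← Finset.mul_prod_erase _ _ (Finset.mem_univ j0), Finsupp.single_eq_same,
          Finset.prod_eq_one, mul_one]
        intro j hj
        have h1 : j ≠ j0 := Finset.ne_of_mem_erase hj
        have h2 := hc j h1
        have h3 : (-c j).toNat = 0 := by omega
        rw [h3, Nat.descFactorial_zero]
      beta_reduce
      rw [Polynomial.eval_mul, Polynomial.eval_C, Polynomial.eval_map,
        Polynomial.eval₂_at_natCast, descPochhammer_eval_eq_descFactorial, hfall]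
      by_cases hn : n < M
      · rw [Nat.descFactorial_eq_zero_iff_lt.2 hn]
        simp
      · push Not at hn
        have hsh0 : sh (Finsupp.single j0 n) c j0 = n - M + P := by
          rw [sh_apply, Finsupp.single_eq_same]
          omega
        have hsh : ∀ j, j ≠ j0 → sh (Finsupp.single j0 n) c j = (c j).toNat := by
          intro j hj
          rw [sh_apply, Finsupp.single_eq_of_ne hj]
          simp
        have hsum : ∑ j, sh (Finsupp.single j0 n) c j = n + 1 := by
          have h1 : ((∑ j, sh (Finsupp.single j0 n) c j : ℕ) : ℤ) = n + ∑ j, c j := by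
            rw [← Finset.add_sum_erase _ _ (Finset.mem_univ j0),
              ← Finset.add_sum_erase Finset.univ c (Finset.mem_univ j0), hsh0]
            push_cast
            have h2 : ∑ j ∈ Finset.univ.erase j0, ((sh (Finsupp.single j0 n) c j : ℕ) : ℤ) =
                ∑ j ∈ Finset.univ.erase j0, c j := by
              refine Finset.sum_congr rfl fun j hj => ?_
              have h3 : j ≠ j0 := Finset.ne_of_mem_erase hj
              rw [hsh j h3, Int.toNat_of_nonneg (hc j h3)]
            rw [h2]
            have h4 : ((n - M : ℕ) : ℤ) + P = n + c j0 := by omega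
            linarith
          rw [hs] at h1
          exact_mod_cast h1
        rw [if_pos hsum, ← Finset.mul_prod_erase _ _ (Finset.mem_univ j0), hsh0]
        have hprod : ∏ j ∈ Finset.univ.erase j0, g j ^ sh (Finsupp.single j0 n) c j = B :=
          Finset.prod_congr rfl fun j hj => by rw [hsh j (Finset.ne_of_mem_erase hj)]
        rw [hprod, mul_smul_comm, ← C_mul']
        have h5 : g j0 ^ M * (g j0 ^ (n - M + P) * B) = g j0 ^ P * B * g j0 ^ n := by
          have h6 : g j0 ^ n = g j0 ^ (n - M) * g j0 ^ M := by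
            rw [← pow_add, Nat.sub_add_cancel hn]
          rw [h6, pow_add]
          ring
        rw [h5]
        ring
    · have h0 : (fun n : ℕ => (fall c (Finsupp.single j0 n) : ℂ) •
          (if ∑ j, sh (Finsupp.single j0 n) c j = n + 1 then
            ∏ j, g j ^ (sh (Finsupp.single j0 n) c) j else 0)) = fun _ => 0 := by
        funext n
        by_cases hf : fall c (Finsupp.single j0 n) = 0
        · rw [hf]
          simp
        · rw [if_neg, smul_zero]
          intro h1
          apply hs
          have hpos : ∀ j, 0 ≤ ((Finsupp.single j0 n : ι →₀ ℕ) j : ℤ) + c j := by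
            intro j
            have h2 : ((Finsupp.single j0 n : ι →₀ ℕ) j).descFactorial (-c j).toNat ≠ 0 := by
              intro h3
              exact hf (Finset.prod_eq_zero (Finset.mem_univ j) h3)
            have h4 : ¬ (Finsupp.single j0 n : ι →₀ ℕ) j < (-c j).toNat := fun h5 =>
              h2 (Nat.descFactorial_eq_zero_iff_lt.2 h5)
            omega
          have h2 : ((∑ j, sh (Finsupp.single j0 n) c j : ℕ) : ℤ) =
              ∑ j, ((Finsupp.single j0 n : ι →₀ ℕ) j : ℤ) + ∑ j, c j := by
            push_cast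
            rw [← Finset.sum_add_distrib]
            refine Finset.sum_congr rfl fun j _ => ?_
            rw [sh_apply, Int.toNat_of_nonneg (hpos j)]
          have h3 : ∑ j, ((Finsupp.single j0 n : ι →₀ ℕ) j : ℤ) = n := by
            rw [Finset.sum_eq_single j0]
            · rw [Finsupp.single_eq_same]
            · intro j _ hj
              rw [Finsupp.single_eq_of_ne hj]
              rfl
            · intro h
              exact absurd (Finset.mem_univ j0) h
          rw [h1, h3] at h2
          push_cast at h2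
          linarith
      rw [h0]
      exact fr_zero _
  · push Not at hc
    obtain ⟨j, hj, hcj⟩ := hc
    have h0 : (fun n : ℕ => (fall c (Finsupp.single j0 n) : ℂ) •
        (if ∑ j, sh (Finsupp.single j0 n) c j = n + 1 then
          ∏ j, g j ^ (sh (Finsupp.single j0 n) c) j else 0)) = fun _ => 0 := by
      funext n
      have h1 : fall c (Finsupp.single j0 n) = 0 := by
        refine Finset.prod_eq_zero (Finset.mem_univ j) ?_
        rw [Finsupp.single_eq_of_ne hj, Nat.descFactorial_eq_zero_iff_lt]
        omega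
      rw [h1]
      simp
    rw [h0]
    exact fr_zero _

/-- the values of an operator of the class `Rep` at the powers of one member -/
theorem fr_rep (g : ι → MvPolynomial σ ℂ) (j0 : ι)
    (E : ((ι →₀ ℕ) → MvPolynomial σ ℂ) → (ι →₀ ℕ) → MvPolynomial σ ℂ) (hE : Rep E) :
    Fr (g j0) (fun n => E (fun β => if ∑ j, β j = n + 1 then ∏ j, g j ^ β j else 0)
      (Finsupp.single j0 n)) := by
  obtain ⟨κ, hκ, c, p, R, hR⟩ := hE
  simp only [hR]
  refine fr_sum _ _ _ fun k _ => ?_
  obtain ⟨q, hq⟩ := evN_single j0 (p k)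
  have h1 := fr_pol (fr_weyl _ (R k).2 _ (fr_term g j0 (c k))) q
  refine h1.imp fun m h2 => h2.imp fun ρ h3 N => ?_
  rw [← h3 N]
  beta_reduce
  rw [map_smul, smul_smul, hq]

/-- **The factor `φ` can be divided out.** -/
theorem divide (g : ι → MvPolynomial σ ℂ) (j0 : ι) (hg : g j0 ≠ 0) (H0 : MvPolynomial σ ℂ)
    (hH0 : H0 ≠ 0) (b φ : Polynomial ℂ) (hφ : ∀ n : ℕ, φ.eval (n : ℂ) ≠ 0)
    (E : ((ι →₀ ℕ) → MvPolynomial σ ℂ) → (ι →₀ ℕ) → MvPolynomial σ ℂ) (hE : Rep E)
    (h : ∀ s : ι →₀ ℕ, (b.eval ((∑ j, s j : ℕ) : ℂ)) • (H0 * ∏ j, g j ^ s j) =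
      (φ.eval ((∑ j, s j : ℕ) : ℂ)) •
        E (fun β => if ∑ j, β j = ∑ j, s j + 1 then ∏ j, g j ^ β j else 0) s) :
    ∃ b' : Polynomial ℂ, b = φ * b' ∧ ∀ s : ι →₀ ℕ,
      (b'.eval ((∑ j, s j : ℕ) : ℂ)) • (H0 * ∏ j, g j ^ s j) =
        E (fun β => if ∑ j, β j = ∑ j, s j + 1 then ∏ j, g j ^ β j else 0) s := by
  classical
  obtain ⟨m, ρ, e⟩ := fr_rep g j0 E hE
  have hgn : ∀ n : ℕ, g j0 ^ n ≠ 0 := fun n => pow_ne_zero _ hg
  have hsum : ∀ n : ℕ, ∑ j, (Finsupp.single j0 n : ι →₀ ℕ) j = n := by
    intro n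
    rw [Finset.sum_eq_single j0]
    · rw [Finsupp.single_eq_same]
    · intro j _ hj
      rw [Finsupp.single_eq_of_ne hj]
    · intro h
      exact absurd (Finset.mem_univ j0) h
  have hprod : ∀ n : ℕ, ∏ j, g j ^ (Finsupp.single j0 n : ι →₀ ℕ) j = g j0 ^ n := by
    intro n
    rw [Finset.prod_eq_single j0]
    · rw [Finsupp.single_eq_same]
    · intro j _ hj
      rw [Finsupp.single_eq_of_ne hj, pow_zero]
    · intro h
      exact absurd (Finset.mem_univ j0) h
  have h1 : ∀ n : ℕ, (b.eval (n : ℂ)) • (H0 * g j0 ^ m) =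
      (φ.eval (n : ℂ)) • ρ.eval (n : MvPolynomial σ ℂ) := by
    intro n
    have h2 := h (Finsupp.single j0 n)
    rw [hsum, hprod] at h2
    have h3 := congrArg (fun z => g j0 ^ m * z) h2
    beta_reduce at h3
    rw [mul_smul_comm, mul_smul_comm, e n] at h3
    apply mul_right_cancel₀ (hgn n)
    rw [smul_mul_assoc, smul_mul_assoc, ← h3]
    congr 1
    ring
  obtain ⟨y, hy⟩ : ∃ y, eval y (H0 * g j0 ^ m) ≠ 0 := by
    by_contra hcon
    push Not at hcon
    exact mul_ne_zero hH0 (hgn m) (MvPolynomial.funext fun y => by rw [hcon y, map_zero])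
  set κ : ℂ := eval y (H0 * g j0 ^ m) with hκ
  set ρ' : Polynomial ℂ := ρ.map (eval y) with hρ'
  have h2 : Polynomial.C κ * b = φ * ρ' := by
    apply Polynomial.eq_of_infinite_eval_eq
    refine (Set.infinite_range_of_injective (Nat.cast_injective (R := ℂ))).mono ?_
    rintro _ ⟨n, rfl⟩
    have h3 := congrArg (eval y) (h1 n)
    rw [smul_eval, smul_eval, ← hκ] at h3
    have h4 : eval y (ρ.eval (n : MvPolynomial σ ℂ)) = ρ'.eval (n : ℂ) := by
      rw [hρ', Polynomial.eval_map, Polynomial.eval₂_at_natCast]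
    rw [h4] at h3
    simp only [Set.mem_ofPred_eq, Polynomial.eval_mul, Polynomial.eval_C]
    rw [← h3, mul_comm]
  have h3 : b = φ * (Polynomial.C κ⁻¹ * ρ') := by
    have h4 : b = Polynomial.C κ⁻¹ * (Polynomial.C κ * b) := by
      rw [← mul_assoc, ← Polynomial.C_mul, inv_mul_cancel₀ hy, Polynomial.C_1, one_mul]
    rw [h4, h2]
    ring
  refine ⟨Polynomial.C κ⁻¹ * ρ', h3, fun s => ?_⟩
  have h4 := h s
  rw [h3, Polynomial.eval_mul, mul_smul] at h4
  exact smul_right_injective _ (hφ _) h4

end Div

end Pool.Agent.R852.PP
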