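import Pool.Agent.R852.PP.Defs
import Pool.Agent.R852.PP.PAdic

set_option autoImplicit false

/-! # Members of the class: products of powers of members of linear systems of plane curves -/

namespace Pool.Agent.R852.PP

open MvPolynomial Pool.Agent.Y230.PS Pool.Agent.Y230.TH

/-- the ideals of the plane, with any index set -/
theorem plane_good (strict : Bool) {ι : Type} [Fintype ι] (g : ι → MvPolynomial (Fin 2) ℚ)
    (hg : ∃ j, g j ≠ 0) : Good strict ⟨Fin 2, ι, g⟩ := by
  obtain ⟨j, hj⟩ := hg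
  set e := (Fintype.equivFin ι).symm with he
  refine Good.equiv ⟨Fin 2, Fin (Fintype.card ι), fun i => g (e i)⟩ _ (Equiv.refl _) e
    (fun i => ?_) (Good.plane _ _ ⟨e.symm j, ?_⟩)
  · change g (e i) = rename (Equiv.refl (Fin 2)) (g (e i))
    rw [Equiv.coe_refl, rename_id_apply]
  · rw [Equiv.apply_symm_apply]
    exact hj

/-- **The polynomials `h(x_1, x_2) ∏_t (∑_j y_{t, j} f_{t, j}(x_1, x_2)) ^ a_t`** with arbitrary
`h ≠ 0`, `f_{t, j}` (not all zero for any `t`) and `a_t ≥ 1` are in the class. -/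
theorem plane_mem (strict : Bool) {m : ℕ} (r a : Fin m → ℕ) (hm : 0 < m) (ha : ∀ t, 0 < a t)
    (h : MvPolynomial (Fin 2) ℚ) (f : (t : Fin m) → Fin (r t) → MvPolynomial (Fin 2) ℚ)
    (hh : h ≠ 0) (hf : ∀ t, ∃ j, f t j ≠ 0) : PTS strict true (formQ a h f) := by
  classical
  choose j hj using hf
  refine PTS.form _ m r a hm ha h f (PTS.good _ (plane_good strict _ ⟨fun q => j q.1, ?_⟩))
  exact mul_ne_zero hh (Finset.prod_ne_zero_iff.2 fun q _ => hj q.1)

end Pool.Agent.R852.PP
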