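import Pool.Agent.R852.PP.Mul

set_option autoImplicit false
set_option linter.unusedSectionVars false
set_option linter.unusedVariables false

/-! # The two instances -/

namespace Pool.Agent.R852.PP

open Polynomial Pool.Agent.Y230.PT Pool.Agent.Y230.PS Pool.Agent.Y230.TH
open Pool.Agent.W574.SM Pool.Agent.W574.RO Pool.Agent.W574.CN Pool.Agent.W574.HS
open Pool.Agent.H628R4.TP (IsBFunction)

variable {p : ℕ} [Fact p.Prime]

section form

variable {σ : Type} [Fintype σ] {m : ℕ} {r : Fin m → ℕ} (a : Fin m → ℕ) (h : MvPolynomial σ ℚ)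
  (f : (t : Fin m) → Fin (r t) → MvPolynomial σ ℚ)

theorem form_M (hm : 0 < m) (ha : ∀ t, 0 < a t) (hA : ∃ J, genP a h f J ≠ 0) (T : ℂ)
    (hT : 1 < ‖T‖) : mM p (genQ a h f) T + (cnt p a T : ℕ) ≤ rG p (wM p) (formQ a h f) T := by
  classical
  obtain ⟨n, hn⟩ := mM_nat (p := p) (genQ a h f) T hA
  have h1 : FK (genQ a h f) ((rr p T : ℝ) : ℂ) n := le_mM.1 (le_of_eq hn.symm)
  have h2 := FK_form a h f hm ha hA _ n h1
  have h3 := dl_le_cntR a ⟨0, hm⟩ (ha _) ((rr p T : ℝ) : ℂ)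
  have h4 := cnt_dl (p := p) a ⟨0, hm⟩ (ha _) T hT
  have h5 : FK (formQ a h f) ((rr p T : ℝ) : ℂ) ((n + cntR a ((rr p T : ℝ) : ℂ) -
      dl ((rr p T : ℝ) : ℂ)) + dl ((rr p T : ℝ) : ℂ)) := h2.mono (by omega)
  refine le_trans ?_ (le_rG (w := wM p) h5)
  rw [hn]
  unfold wM
  exact_mod_cast (by omega : n + cnt p a T ≤ n + cntR a ((rr p T : ℝ) : ℂ) -
    dl ((rr p T : ℝ) : ℂ) + dp p T)

theorem form_R (hm : 0 < m) (ha : ∀ t, 0 < a t) (hA : ∃ J, genP a h f J ≠ 0) (T : ℂ)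
    (hT : 1 < ‖T‖) : mR p (genQ a h f) T + (cnt p a T : ℕ) ≤ rG p (wR p) (formQ a h f) T := by
  classical
  have h3 := dl_le_cntR a ⟨0, hm⟩ (ha _) ((rr p T : ℝ) : ℂ)
  have h4 := cnt_dl (p := p) a ⟨0, hm⟩ (ha _) T hT
  by_cases hf : Forced (genQ a h f).toC ((rr p T : ℝ) : ℂ)
  · have h2 := FK_form a h f hm ha hA _ 1 (forced_FK hf)
    have h5 : FK (formQ a h f) ((rr p T : ℝ) : ℂ) ((1 + cntR a ((rr p T : ℝ) : ℂ) -
        dl ((rr p T : ℝ) : ℂ)) + dl ((rr p T : ℝ) : ℂ)) := h2.mono (by omega)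
    refine le_trans ?_ (le_rG (w := wR p) h5)
    unfold wR
    rw [if_neg (by omega)]
    exact le_top
  · rw [mR_zero hf, zero_add]
    have h2 := FK_form a h f hm ha hA _ 0 (FK_zero _ ((rr p T : ℝ) : ℂ))
    have h5 : FK (formQ a h f) ((rr p T : ℝ) : ℂ) ((cntR a ((rr p T : ℝ) : ℂ) -
        dl ((rr p T : ℝ) : ℂ)) + dl ((rr p T : ℝ) : ℂ)) := h2.mono (by omega)
    refine le_trans ?_ (le_rG (w := wR p) h5)
    unfold wR
    split_ifs with h6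
    · exact_mod_cast (by omega : cnt p a T ≤ dp p T)
    · exact le_top

end form

section pow

variable {σ : Type} [Fintype σ] (g : MvPolynomial σ ℚ)

theorem FK_pow (hg : g ≠ 0) (k : ℕ) (hk : k ≠ 0) (r : ℂ) (n : ℕ)
    (h : FK ⟨σ, Fin 1, fun _ => g⟩ ((k : ℂ) * r) n) : FK ⟨σ, Fin 1, fun _ => g ^ k⟩ r n := by
  intro b hb
  have hkC : (k : ℂ) ≠ 0 := by exact_mod_cast hk
  have hgC : MvPolynomial.map (algebraMap ℚ ℂ) g ≠ 0 := fun h0 => hg
    (MvPolynomial.map_injective _ (algebraMap ℚ ℂ).injective (by rw [map_zero]; exact h0))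
  have e : FamQ.toC ⟨σ, Fin 1, fun _ => g ^ k⟩ =
      fun _ : Fin 1 => MvPolynomial.map (algebraMap ℚ ℂ) g ^ k := by
    funext j
    exact map_pow _ _ _
  rw [e] at hb
  have h1 := isB_of_pow _ hgC k hk b (Pool.Agent.Y229.isB_of_single _ b hb)
  exact dvd_of_comp b (k : ℂ) hkC r n (h _ (single_of_isB _ _ h1))

theorem pow_M (hg : g ≠ 0) (k : ℕ) (hk : k ≠ 0) (T : ℂ) :
    mM p ⟨σ, Fin 1, fun _ => g⟩ (T ^ k) ≤ mM p ⟨σ, Fin 1, fun _ => g ^ k⟩ T := by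
  classical
  obtain ⟨n, hn⟩ := mM_nat (p := p) ⟨σ, Fin 1, fun _ => g⟩ (T ^ k) ⟨(0 : Fin 1), hg⟩
  have h1 : FK ⟨σ, Fin 1, fun _ => g⟩ ((rr p (T ^ k) : ℝ) : ℂ) n := le_mM.1 (le_of_eq hn.symm)
  rw [hn]
  refine le_mM.2 ?_
  have e : ((rr p (T ^ k) : ℝ) : ℂ) = (k : ℂ) * ((rr p T : ℝ) : ℂ) := by
    rw [rr_pow]
    push_cast
    rfl
  rw [e] at h1
  have h2 := FK_pow g hg k hk _ n h1
  exact fun b hb => h2 b hb

theorem pow_R (hg : g ≠ 0) (k : ℕ) (hk : k ≠ 0) (T : ℂ) :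
    mR p ⟨σ, Fin 1, fun _ => g⟩ (T ^ k) ≤ mR p ⟨σ, Fin 1, fun _ => g ^ k⟩ T := by
  classical
  by_cases hf : Forced (FamQ.toC ⟨σ, Fin 1, fun _ => g⟩) ((rr p (T ^ k) : ℝ) : ℂ)
  · have h1 : FK ⟨σ, Fin 1, fun _ => g⟩ ((rr p (T ^ k) : ℝ) : ℂ) 1 := forced_FK hf
    have e : ((rr p (T ^ k) : ℝ) : ℂ) = (k : ℂ) * ((rr p T : ℝ) : ℂ) := by
      rw [rr_pow]
      push_cast
      rfl
    rw [e] at h1
    rw [mR_top (FK_forced le_rfl (FK_pow g hg k hk _ 1 h1))]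
    exact le_top
  · rw [mR_zero hf]
    exact bot_le

end pow

section comp

theorem rm_comp (D : ℂ[X]) (hD : D ≠ 0) (T : ℂ) (hT : T ≠ 0) (k : ℕ) (hk : k ≠ 0) :
    (D.comp (X ^ k)).rootMultiplicity T = D.rootMultiplicity (T ^ k) := by
  obtain ⟨Q, hQ, hnd⟩ := exists_eq_pow_rootMultiplicity_mul_and_not_dvd D hD (T ^ k)
  set n := D.rootMultiplicity (T ^ k) with hn
  have hQ0 : Q.eval (T ^ k) ≠ 0 := fun h => hnd (dvd_iff_isRoot.2 h)
  obtain ⟨G, hG⟩ : (X - C T) ∣ (X ^ k - C (T ^ k) : ℂ[X]) := by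
    rw [dvd_iff_isRoot, IsRoot.def]
    simp
  have hG0 : G.eval T ≠ 0 := by
    have h1 := congrArg derivative hG
    have h2 := congrArg (fun P : ℂ[X] => P.eval T) h1
    simp only [derivative_sub, derivative_X_pow, derivative_C, sub_zero, derivative_mul,
      derivative_X, eval_mul, eval_add, eval_C, eval_pow, eval_X, eval_sub, sub_self, zero_mul,
      add_zero, one_mul] at h2
    rw [← h2]
    exact mul_ne_zero (by exact_mod_cast hk) (pow_ne_zero _ hT)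
  have h1 : D.comp (X ^ k) = (X - C T) ^ n * (G ^ n * Q.comp (X ^ k)) := by
    conv_lhs => rw [hQ]
    rw [mul_comp, pow_comp, sub_comp, X_comp, C_comp, hG, mul_pow]
    ring
  have h2 : (G ^ n * Q.comp (X ^ k)).eval T ≠ 0 := by
    rw [eval_mul, eval_pow, eval_comp, eval_pow, eval_X]
    exact mul_ne_zero (pow_ne_zero _ hG0) hQ0
  have h3 : (X - C T) ^ n * (G ^ n * Q.comp (X ^ k)) ≠ 0 := by
    refine mul_ne_zero (pow_ne_zero _ (X_sub_C_ne_zero T)) fun h => h2 ?_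
    rw [h, eval_zero]
  rw [h1, rootMultiplicity_mul h3, rootMultiplicity_X_sub_C_pow,
    rootMultiplicity_eq_zero (show ¬ IsRoot (G ^ n * Q.comp (X ^ k)) T from h2), add_zero]

theorem FR_comp {m : ℂ → ℕ∞} {F : ℝ → ℂ} (h : FR p m F) (k : ℕ) (hk : k ≠ 0) :
    FR p (fun T => m (T ^ k)) (fun s => F (k * s)) := by
  obtain ⟨D, P, hD, h1, h2⟩ := h.rat
  refine FR_of_rat (D.comp (X ^ k)) (P.comp (X ^ k)) ?_ (fun s hs => ?_) fun T hT => ?_
  · intro h0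
    apply hD
    have h3 := congrArg natDegree h0
    rw [natDegree_comp, natDegree_X_pow, natDegree_zero] at h3
    have h4 : D.natDegree = 0 := (Nat.mul_eq_zero.1 h3).resolve_right hk
    obtain ⟨c, hc⟩ := natDegree_eq_zero.1 h4
    rw [← hc] at h0 ⊢
    simpa using h0
  · have h3 := h1 (k * s) (mul_nonneg (Nat.cast_nonneg _) hs)
    have h4 : ((Pool.Agent.W427.SMC.tr' p (k * s) : ℝ) : ℂ) = ((Pool.Agent.W427.SMC.tr' p s : ℝ) : ℂ) ^ k := by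
      rw [Pool.Agent.W427.SMC.tr'_nat p s k, Complex.ofReal_pow]
    rw [h4] at h3
    rw [eval_comp, eval_comp, eval_pow, eval_X]
    exact h3
  · rw [rm_comp D hD T hT k hk]
    refine (h2 (T ^ k) (pow_ne_zero _ hT)).trans (le_of_eq ?_)
    unfold Pool.Agent.Y230.PS.tr
    have h3 : ‖T ^ k‖ ≤ 1 ↔ ‖T‖ ≤ 1 := by
      rw [norm_pow]
      exact pow_le_one_iff_of_nonneg (norm_nonneg _) hk
    simp only [h3]

theorem FF_pow {σ : Type} [Fintype σ] (g : MvPolynomial σ ℚ_[p]) (k : ℕ) {s : ℝ} :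
    Pool.Agent.Y230.PS.FF (fun _ : Fin 1 => g ^ k) s =
      Pool.Agent.Y230.PS.FF (fun _ : Fin 1 => g) (k * s) := by
  unfold Pool.Agent.Y230.PS.FF FZ
  congr 2
  refine MeasureTheory.lintegral_congr fun x => ?_
  congr 1
  unfold sz
  rw [pi_norm_const, pi_norm_const, map_pow, norm_pow, Real.rpow_mul (norm_nonneg _),
    Real.rpow_natCast]

end comp

end Pool.Agent.R852.PP
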