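import Pool.Agent.R852.PP.Mono
import Pool.Agent.Y230.TH.Fin

set_option autoImplicit false
set_option linter.unusedSectionVars false
set_option linter.unusedVariables false

/-! # The induction -/

namespace Pool.Agent.R852.PP

open MeasureTheory MvPolynomial Pool.Agent.W427.SMC Pool.Agent.Y230.PT Pool.Agent.Y230.PS
open Pool.Agent.Y230.TH
open scoped ENNReal
open Pool.Agent.Y230.RE Pool.Agent.W574.SM Pool.Agent.W574.RO Pool.Agent.W574.CN

attribute [local instance] msZ bsZ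

/-- compatible multiplicities -/
structure IsMltP (p : ℕ) [Fact p.Prime] (strict : Bool) (mlt mref : FamQ → ℂ → ℕ∞) : Prop where
  base : IsMltT p strict mlt mref
  mono : ∀ (σ ι : Type) [Fintype σ] [Fintype ι] [Nonempty ι] (v : ι → σ →₀ ℕ),
    FR p (mlt (monoQ v)) (Pool.Agent.Y230.PS.FF (FamQ.toP p (monoQ v)))
  form : ∀ (σ : Type) [Fintype σ] (m : ℕ) (r a : Fin m → ℕ) (h : MvPolynomial σ ℚ)
    (f : (t : Fin m) → Fin (r t) → MvPolynomial σ ℚ), 0 < m → (∀ t, 0 < a t) →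
    (∃ J, genP a h f J ≠ 0) → ∀ T : ℂ, 1 < ‖T‖ →
      mlt (genQ a h f) T + (cnt p a T : ℕ) ≤ mref (formQ a h f) T
  pow : ∀ (σ : Type) [Fintype σ] (g : MvPolynomial σ ℚ), g ≠ 0 → ∀ k : ℕ, k ≠ 0 → ∀ T : ℂ,
    mlt ⟨σ, Fin 1, fun _ => g⟩ (T ^ k) ≤ mlt ⟨σ, Fin 1, fun _ => g ^ k⟩ T

variable {p : ℕ} [Fact p.Prime]

section

variable {σ : Type} [Fintype σ] {m : ℕ} {r : Fin m → ℕ} (a : Fin m → ℕ) (h : MvPolynomial σ ℚ)
  (f : (t : Fin m) → Fin (r t) → MvPolynomial σ ℚ)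

theorem formP_P : map (algebraMap ℚ ℚ_[p]) (formP a h f) =
    formK a (map (algebraMap ℚ ℚ_[p]) h) (fun t j => map (algebraMap ℚ ℚ_[p]) (f t j)) := by
  unfold formP formK
  rw [map_mul, map_rename, map_prod]
  congr 1
  refine Finset.prod_congr rfl fun t _ => ?_
  rw [map_pow, map_sum]
  congr 1
  refine Finset.sum_congr rfl fun j _ => ?_
  rw [map_mul, map_X, map_rename]

theorem genP_P (J : (q : Σ t, Fin (a t)) → Fin (r q.1)) :
    map (algebraMap ℚ ℚ_[p]) (genP a h f J) =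
      genK a (map (algebraMap ℚ ℚ_[p]) h) (fun t j => map (algebraMap ℚ ℚ_[p]) (f t j)) J := by
  unfold genP genK
  rw [map_mul, map_prod]

theorem formQ_toP : (formQ a h f).toP p = fun _ : Fin 1 =>
    formK a (map (algebraMap ℚ ℚ_[p]) h) (fun t j => map (algebraMap ℚ ℚ_[p]) (f t j)) :=
  funext fun _ => formP_P a h f

theorem genQ_toP : (genQ a h f).toP p =
    genK a (map (algebraMap ℚ ℚ_[p]) h) (fun t j => map (algebraMap ℚ ℚ_[p]) (f t j)) :=
  funext fun J => genP_P a h f J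

end

theorem pow_case {σ : Type} [Fintype σ] {g : MvPolynomial σ ℚ} {k : ℕ} (hk : k ≠ 0)
    {m m' : ℂ → ℕ∞} (hm : ∀ T, m (T ^ k) ≤ m' T)
    (h : FR p m (Pool.Agent.Y230.PS.FF (FamQ.toP p ⟨σ, Fin 1, fun _ => g⟩))) :
    FR p m' (Pool.Agent.Y230.PS.FF (FamQ.toP p ⟨σ, Fin 1, fun _ => g ^ k⟩)) := by
  have h2 := FR_comp h k hk
  refine (h2.mono fun T _ => hm T).congr fun s hs => ?_
  have e : FamQ.toP p ⟨σ, Fin 1, fun _ => g ^ k⟩ =
      fun _ : Fin 1 => map (algebraMap ℚ ℚ_[p]) g ^ k := funext fun _ => map_pow _ _ _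
  have e' : FamQ.toP p ⟨σ, Fin 1, fun _ => g⟩ =
      fun _ : Fin 1 => map (algebraMap ℚ ℚ_[p]) g := rfl
  rw [e, e']
  exact (FF_pow (map (algebraMap ℚ ℚ_[p]) g) k (s := s)).symm

/-- **The zeta functions of the class.** -/
theorem pts_main {strict : Bool} {mlt mref : FamQ → ℂ → ℕ∞} (hM : IsMltP p strict mlt mref)
    (c : Bool) (A : FamQ) (h : PTS strict c A) : (∃ j, A.f j ≠ 0) ∧
      FR p (if c = true then mref A else mlt A) (Pool.Agent.Y230.PS.FF (A.toP p)) := by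
  classical
  induction h with
  | good A h =>
    obtain ⟨h1, h2⟩ := good_main hM.base.base A h
    refine ⟨h1, ?_⟩
    have h3 := h2 (fun _ => 1) fun _ => one_ne_zero
    rw [scl_one] at h3
    simpa using h3
  | mono σ ι v =>
    refine ⟨⟨Classical.arbitrary ι, ?_⟩, by simpa using hM.mono σ ι v⟩
    change monomial (v _) (1 : ℚ) ≠ 0
    rw [Ne, monomial_eq_zero]
    exact one_ne_zero
  | curve g hg => exact ⟨⟨(0 : Fin 1), hg⟩, by simpa using hM.base.curve g hg⟩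
  | hyp A h ih =>
    refine ⟨ih.1, ?_⟩
    have h1 := ih.2
    simp only [if_true] at h1
    simpa using h1.mono (hM.base.hyp A)
  | pow σ g k hk h ih =>
    have hg : g ≠ 0 := by
      obtain ⟨j, hj⟩ := ih.1
      exact hj
    refine ⟨⟨(0 : Fin 1), pow_ne_zero k hg⟩, ?_⟩
    have h1 := ih.2
    simp only [if_true] at h1
    rw [if_neg Bool.false_ne_true]
    exact pow_case hk (fun T => hM.pow σ g hg k hk T) (h1.mono (hM.base.hyp _))
  | sum A B hA hB ihA ihB =>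
    refine ⟨sum_ne A B ihA.1, ?_⟩
    rw [toP_sum]
    have h1 := ihA.2
    have h2 := ihB.2
    simp only [Bool.false_eq_true, if_false] at h1 h2 ⊢
    exact FR_sumK _ _ _ _ _ (hM.base.base.sum A B) h1 h2
  | mul c A B hA hB ihA ihB =>
    refine ⟨mul_ne A B ihA.1 ihB.1, ?_⟩
    rw [toP_mul]
    have h1 := ihA.2
    have h2 := ihB.2
    cases c
    · simp only [Bool.false_eq_true, if_false] at h1 h2 ⊢
      refine (FR.mul h1 h2 (fun T hT => hM.base.base.mul A B T hT ihA.1 ihB.1)).congr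
        fun s hs => ?_
      rw [FF_mulK]
    · simp only [if_true] at h1 h2 ⊢
      refine (FR.mul h1 h2 (fun T hT => hM.base.mul A B T hT ihA.1 ihB.1)).congr fun s hs => ?_
      rw [FF_mulK]
  | univ A hA ihA =>
    refine ⟨univ_ne A ihA.1, ?_⟩
    rw [toP_univ]
    have hι : Nonempty A.ι := ⟨ihA.1.choose⟩
    have h1 := ihA.2
    simp only [Bool.false_eq_true, if_false, if_true] at h1 ⊢
    exact FR_univK hι _ _ _ (fun T hT => hM.base.univ A T hT ihA.1) h1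
  | form σ m r a hm ha h f hA ihA =>
    have hne : ∃ J, genP a h f J ≠ 0 := ihA.1
    obtain ⟨hh, hf⟩ := genQ_ne a h f ha hne
    refine ⟨⟨(0 : Fin 1), formP_ne a h f hne ha⟩, ?_⟩
    have h1 := ihA.2
    simp only [Bool.false_eq_true, if_false, if_true] at h1 ⊢
    rw [genQ_toP] at h1
    rw [formQ_toP]
    exact FR_formK a (fun t => ⟨(hf t).choose⟩) _ _ _ _
      (fun T hT => hM.form σ m r a h f hm ha hne T hT) h1
  | ts A τ g hA hg ihA ihg =>
    have hg0 : g ≠ 0 := by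
      obtain ⟨j, hj⟩ := ihg.1
      exact hj
    refine ⟨ts_ne A τ g hg0, ?_⟩
    rw [toP_ts]
    have hι : Nonempty A.ι := ⟨ihA.1.choose⟩
    have h1 := ihA.2
    have h2 := ihg.2
    simp only [Bool.false_eq_true, if_false, if_true] at h1 h2 ⊢
    exact FR_ts Pool.Agent.Y287.TH.tZ _ _ _ _ _ (hM.base.ts A τ g ihA.1 hg0)
      (hM.base.one A τ g ihA.1 hg0) h1 h2
  | drop σ κ g h ih =>
    refine ⟨⟨(0 : Fin 1), fun h0 => ?_⟩, ?_⟩
    · obtain ⟨j, hj⟩ := ih.1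
      apply hj
      have h1 : g = 0 := h0
      change rename Sum.inl g = 0
      rw [h1, map_zero]
    · have h1 := ih.2
      simp only [if_true] at h1 ⊢
      refine (h1.mono (hM.base.drop σ κ g)).congr fun s hs => ?_
      have h2 := FF_drop (κ := κ) (map (algebraMap ℚ ℚ_[p]) g) s
      refine Eq.trans ?_ h2
      congr 1
      funext j
      exact map_rename _ _ _
  | equiv c A B i k h hA ihA =>
    refine ⟨equiv_ne A B i k h ihA.1, ?_⟩
    have h3 : ∀ s : ℝ, Pool.Agent.Y230.PS.FF (A.toP p) s = Pool.Agent.Y230.PS.FF (B.toP p) s :=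
      fun s => by
      rw [FF_equiv i k (A.toP p) (B.toP p) (fun j => ?_) s]
      change map (algebraMap ℚ ℚ_[p]) (B.f (k j)) = _
      rw [h, map_rename]
      rfl
    have h1 := ihA.2
    cases c
    · simp only [Bool.false_eq_true, if_false] at h1 ⊢
      exact (h1.mono fun T hT => hM.base.base.equiv A B i k h T hT).congr fun s hs => h3 s
    · simp only [if_true] at h1 ⊢
      exact (h1.mono fun T hT => hM.base.equiv A B i k h T hT).congr fun s hs => h3 s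

theorem mM_le_mR (A : FamQ) (T : ℂ) : mM p A T ≤ mR p A T := by
  classical
  refine iSup_le fun k => ?_
  by_cases hk : (k : ℕ) = 0
  · rw [hk, Nat.cast_zero]
    exact bot_le
  · have h1 : FK A ((rr p T : ℝ) : ℂ) (k : ℕ) := fun b hb => k.2 b hb
    rw [mR_top (FK_forced (m := (k : ℕ)) (by omega) h1)]
    exact le_top

theorem isMltP_M : IsMltP p true (mM p) (rG p (wM p)) where
  base := isMltT_M Pool.Agent.Y465.TH.tR
  mono σ ι _ _ _ v := FR_mono v
  form σ _ m r a h f hm ha hA T hT := form_M a h f hm ha hA T hT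
  pow σ _ g hg k hk T := pow_M g hg k hk T

theorem isMltP_R : IsMltP p false (mR p) (rG p (wR p)) where
  base := isMltT_R Pool.Agent.Y465.TH.tR
  mono σ ι _ _ _ v := (FR_mono v).mono fun T _ => mM_le_mR _ T
  form σ _ m r a h f hm ha hA T hT := form_R a h f hm ha hA T hT
  pow σ _ g hg k hk T := pow_R g hg k hk T

section fin

variable {V : Type} [Fintype V]

theorem coreP {strict : Bool} {mlt mref : FamQ → ℂ → ℕ∞} (hM : IsMltP p strict mlt mref)
    (F : MvPolynomial V ℚ) (hF : PTS strict false (hyp F)) :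
    ∃ D P : Polynomial ℂ, D ≠ 0 ∧ (∀ s : ℝ, 0 ≤ s →
      D.eval ((tr' p s : ℝ) : ℂ) * ((∫⁻ x : V → ℤ_[p], N p s (eval₂ (algebraMap ℚ ℚ_[p])
        (fun i => inc p (x i)) F) ∂(Measure.pi fun _ : V => mu p)).toReal : ℂ) =
          P.eval ((tr' p s : ℝ) : ℂ)) ∧
      ∀ T0, T0 ≠ 0 → (D.rootMultiplicity T0 : ℕ∞) ≤
        Pool.Agent.Y230.PS.tr (mlt (hyp F)) T0 := by
  obtain ⟨h1, h2⟩ := pts_main hM false (hyp F) hF
  simp only [Bool.false_eq_true, if_false] at h2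
  obtain ⟨D, P, hD, h3, h4⟩ := h2.rat
  refine ⟨D, P, hD, fun s hs => ?_, h4⟩
  rw [← FF_hyp]
  exact h3 s hs

theorem coreP_Z {strict : Bool} {mlt mref : FamQ → ℂ → ℕ∞} (hM : IsMltP p strict mlt mref)
    (F : MvPolynomial V ℤ) (hF : PTS strict false (hyp (map (Int.castRingHom ℚ) F))) :
    ∃ D P : Polynomial ℂ, D ≠ 0 ∧ (∀ s : ℝ, 0 ≤ s →
      D.eval ((tr' p s : ℝ) : ℂ) * ((∫⁻ x : V → ℤ_[p], tau p s (aeval x F)
        ∂(Measure.pi fun _ : V => mu p)).toReal : ℂ) = P.eval ((tr' p s : ℝ) : ℂ)) ∧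
      ∀ T0, T0 ≠ 0 → (D.rootMultiplicity T0 : ℕ∞) ≤
        Pool.Agent.Y230.PS.tr (mlt (hyp (map (Int.castRingHom ℚ) F))) T0 := by
  obtain ⟨D, P, hD, h2, h3⟩ := coreP hM _ hF
  refine ⟨D, P, hD, fun s hs => ?_, h3⟩
  rw [← h2 s hs]
  simp only [tau_N]

/-- **The orders of the poles are at most the multiplicities of the roots.** -/
theorem mero_MZ (F : MvPolynomial V ℤ)
    (hF : PTS true false (hyp (map (Int.castRingHom ℚ) F)))
    (b : Polynomial ℂ) (hb0 : b ≠ 0)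
    (hb : Pool.Agent.H628R4.TP.IsBFunction (map (Int.castRingHom ℂ) F) b)
    (Z : ℂ → ℂ) (hZ : MeromorphicOn Z Set.univ)
    (hZp : ∀ s : ℂ, 0 < s.re → Z s = igusaZeta p F s) (s₀ : ℂ) :
    ((-(b.rootMultiplicity (s₀.re : ℂ) : ℤ) : ℤ) : WithTop ℤ) ≤ meromorphicOrderAt Z s₀ := by
  obtain ⟨D, P, hD0, h1, h2⟩ := coreP_Z (p := p) isMltP_M F hF
  have h3 := mero_bound p D P hD0 Z hZ (fun s hs => by
    rw [pw_real, hZp s (by simpa using hs), igusaZeta_eq, h1 s hs.le]) s₀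
  refine le_trans ?_ h3
  have h4 := mult_of_tr (p := p) (map (Int.castRingHom ℚ) F) b hb0 (by
    rw [map_map]
    exact hb) _ _ (h2 (pw p s₀) (pw_ne_zero p s₀))
  have h5 : rr p (pw p s₀) = s₀.re := pw_norm p s₀
  rw [h5] at h4
  exact_mod_cast neg_le_neg (Int.ofNat_le.2 h4)

/-- **The real parts of the poles are roots.** -/
theorem mero_RZ (F : MvPolynomial V ℤ)
    (hF : PTS false false (hyp (map (Int.castRingHom ℚ) F)))
    (b : Polynomial ℂ) (hb : Pool.Agent.H628R4.TP.IsBFunction (map (Int.castRingHom ℂ) F) b)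
    (Z : ℂ → ℂ) (hZ : MeromorphicOn Z Set.univ)
    (hZp : ∀ s : ℂ, 0 < s.re → Z s = igusaZeta p F s) (s₀ : ℂ)
    (hs : meromorphicOrderAt Z s₀ < 0) : b.eval (s₀.re : ℂ) = 0 := by
  obtain ⟨D, P, hD0, h1, h2⟩ := coreP_Z (p := p) isMltP_R F hF
  have h3 := mero_bound p D P hD0 Z hZ (fun s hs => by
    rw [pw_real, hZp s (by simpa using hs), igusaZeta_eq, h1 s hs.le]) s₀
  have h5 : rr p (pw p s₀) = s₀.re := pw_norm p s₀
  rw [← h5]
  refine root_of_tr (map (Int.castRingHom ℚ) F) b ?_ _ (D.rootMultiplicity (pw p s₀))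
    (fun h0 => ?_) (h2 _ (pw_ne_zero p s₀))
  · rw [map_map]
    exact hb
  · rw [h0] at h3
    exact absurd (lt_of_le_of_lt h3 hs) (by simp)

theorem mero_M (F : MvPolynomial V ℚ) (hF : PTS true false (hyp F)) (b : Polynomial ℂ)
    (hb0 : b ≠ 0) (hb : Pool.Agent.H628R4.TP.IsBFunction (map (algebraMap ℚ ℂ) F) b)
    (Z : ℂ → ℂ) (hZ : MeromorphicOn Z Set.univ)
    (hZp : ∀ s : ℂ, 0 < s.re → Z s = zetaQ p F s) (s₀ : ℂ) :
    ((-(b.rootMultiplicity (s₀.re : ℂ) : ℤ) : ℤ) : WithTop ℤ) ≤ meromorphicOrderAt Z s₀ := by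
  obtain ⟨D, P, hD0, h1, h2⟩ := coreP (p := p) isMltP_M F hF
  have h3 := mero_bound p D P hD0 Z hZ (fun s hs => by
    rw [pw_real, hZp s (by simpa using hs), zetaQ_eq, h1 s hs.le]) s₀
  refine le_trans ?_ h3
  have h4 := mult_of_tr (p := p) F b hb0 hb _ _ (h2 (pw p s₀) (pw_ne_zero p s₀))
  have h5 : rr p (pw p s₀) = s₀.re := pw_norm p s₀
  rw [h5] at h4
  exact_mod_cast neg_le_neg (Int.ofNat_le.2 h4)

theorem mero_R (F : MvPolynomial V ℚ) (hF : PTS false false (hyp F)) (b : Polynomial ℂ)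
    (hb : Pool.Agent.H628R4.TP.IsBFunction (map (algebraMap ℚ ℂ) F) b)
    (Z : ℂ → ℂ) (hZ : MeromorphicOn Z Set.univ)
    (hZp : ∀ s : ℂ, 0 < s.re → Z s = zetaQ p F s) (s₀ : ℂ) (hs : meromorphicOrderAt Z s₀ < 0) :
    b.eval (s₀.re : ℂ) = 0 := by
  obtain ⟨D, P, hD0, h1, h2⟩ := coreP (p := p) isMltP_R F hF
  have h3 := mero_bound p D P hD0 Z hZ (fun s hs => by
    rw [pw_real, hZp s (by simpa using hs), zetaQ_eq, h1 s hs.le]) s₀
  have h5 : rr p (pw p s₀) = s₀.re := pw_norm p s₀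
  rw [← h5]
  refine root_of_tr F b hb _ (D.rootMultiplicity (pw p s₀)) (fun h0 => ?_)
    (h2 _ (pw_ne_zero p s₀))
  rw [h0] at h3
  exact absurd (lt_of_le_of_lt h3 hs) (by simp)

/-- the poles of the Poincare series -/
theorem poin_R (F : MvPolynomial V ℤ)
    (hF : PTS false false (hyp (map (Int.castRingHom ℚ) F)))
    (b : Polynomial ℂ) (hb : Pool.Agent.H628R4.TP.IsBFunction (map (Int.castRingHom ℂ) F) b) :
    ∃ Φ : RatFunc ℂ, ((Φ.denom : Polynomial ℂ) : PowerSeries ℂ) * poincare p F =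
        ((Φ.num : Polynomial ℂ) : PowerSeries ℂ) ∧
      ∀ T₀ : ℂ, Φ.denom.eval T₀ = 0 → b.eval ((-Real.log ‖T₀‖ / Real.log p : ℝ) : ℂ) = 0 := by
  obtain ⟨D, P, hD0, h1, h2⟩ := coreP_Z (p := p) isMltP_R F hF
  obtain ⟨Φ, h3, h4, h5⟩ := poincare_of p _ D P hD0 h1
  refine ⟨Φ, h3, fun T hT0 => ?_⟩
  have hd : Φ.denom ≠ 0 := Φ.denom_ne_zero
  have h6 : Φ.denom.rootMultiplicity T ≠ 0 := by
    rw [Ne, Polynomial.rootMultiplicity_eq_zero_iff]
    intro h
    exact hd (h hT0)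
  have hT : T ≠ 0 := by
    rintro rfl
    exact h6 h4
  refine root_of_tr (map (Int.castRingHom ℚ) F) b ?_ T (D.rootMultiplicity T) (fun h0 => ?_)
    (h2 T hT)
  · rw [map_map]
    exact hb
  · have := h5 T
    omega

end fin

end Pool.Agent.R852.PP
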