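import Pool.Agent.R852.PP.Disc
import Pool.Agent.R852.PP.Inst
import Pool.Agent.W427.SMC.Igusa

set_option autoImplicit false
set_option linter.unusedSectionVars false
set_option linter.unusedVariables false

/-! # Monomial ideals: the zeta functions and the multiplicities of the roots -/

namespace Pool.Agent.R852.PP

open Polynomial Pool.Agent.Y230.PT Pool.Agent.Y230.PS Pool.Agent.Y230.TH
open Pool.Agent.W574.SM Pool.Agent.W574.RO Pool.Agent.W574.CN Pool.Agent.W574.HS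
open Pool.Agent.H628R4.TP (IsBFunction)
open Pool.Agent.W427.SMC (mu msZ bsZ tr' phi_eq tau)

attribute [local instance] msZ bsZ

variable {p : ℕ} [Fact p.Prime]

variable {σ ι : Type} [Fintype σ] [Fintype ι]

/-- the monomial ideal -/
@[reducible] noncomputable def monoQ (v : ι → σ →₀ ℕ) : FamQ :=
  ⟨σ, ι, fun j => MvPolynomial.monomial (v j) 1⟩

/-- the corresponding sparse polynomial -/
noncomputable def spP (v : ι → σ →₀ ℕ) : MvPolynomial (σ ⊕ (Σ _ : Unit, ι)) ℤ :=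
  Pool.Agent.W427.SMC.sparseProd (κ := Unit) (J := fun _ => ι) (fun _ : σ => 0) (fun _ => 1)
    (fun _ _ => 1) (fun _ _ => 1) (fun _ j i => v j i)

/-- the bijection of the variables -/
def eqv (σ ι : Type) : σ ⊕ (Σ _ : Unit, ι) ≃ ι ⊕ σ where
  toFun := Sum.elim Sum.inr fun q => Sum.inl q.2
  invFun := Sum.elim (fun j => Sum.inr ⟨(), j⟩) Sum.inl
  left_inv := by rintro (x | ⟨⟨⟩, x⟩) <;> rfl
  right_inv := by rintro (x | x) <;> rfl

theorem spP_univ (v : ι → σ →₀ ℕ) : ∑ j, (MvPolynomial.X (Sum.inl j) *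
    MvPolynomial.rename Sum.inr (MvPolynomial.monomial (v j) 1) : MvPolynomial (ι ⊕ σ) ℚ) =
    MvPolynomial.rename (eqv σ ι) (MvPolynomial.map (Int.castRingHom ℚ) (spP v)) := by
  unfold spP Pool.Agent.W427.SMC.sparseProd
  simp only [pow_zero, pow_one, Finset.prod_const_one, one_mul, Finset.univ_unique,
    Finset.prod_singleton, map_one, map_sum, map_mul, map_prod, map_pow,
    MvPolynomial.map_X, MvPolynomial.rename_X]
  refine Finset.sum_congr rfl fun j _ => ?_
  rw [MvPolynomial.monomial_eq, MvPolynomial.C_1, one_mul, Finsupp.prod_fintype _ _ (by simp),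
    map_prod]
  congr 1
  refine Finset.prod_congr rfl fun i _ => ?_
  rw [map_pow, MvPolynomial.rename_X]
  rfl

theorem mono_null [Nonempty ι] (v : ι → σ →₀ ℕ) :
    (MeasureTheory.Measure.pi fun _ : σ => mu p) {x | sz (FamQ.toP p (monoQ v)) x = 0} = 0 := by
  have hna : ∀ i : σ, (MeasureTheory.Measure.pi fun _ : σ => mu p) {x | x i = 0} = 0 := by
    intro i
    have h : MeasureTheory.NullSingletonClass (mu p) := by
      have e : mu p = Pool.Agent.W195.PZ.lam p := rfl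
      rw [e]
      infer_instance
    exact MeasureTheory.Measure.pi_hyperplane (μ := fun _ : σ => mu p) i 0
  have h0 : (MeasureTheory.Measure.pi fun _ : σ => mu p) (⋃ i : σ, {x | x i = 0}) = 0 :=
    MeasureTheory.measure_iUnion_null hna
  refine MeasureTheory.measure_mono_null ?_ h0
  intro x hx
  have hx' : sz (FamQ.toP p (monoQ v)) x = 0 := hx
  unfold sz at hx'
  rw [norm_eq_zero] at hx'
  have h1 := congrFun hx' (Classical.arbitrary ι)
  have h2 : MvPolynomial.eval (fun i => inc p (x i)) (MvPolynomial.map (algebraMap ℚ ℚ_[p])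
      (MvPolynomial.monomial (v (Classical.arbitrary ι)) (1 : ℚ))) = 0 := h1
  rw [MvPolynomial.map_monomial, map_one, MvPolynomial.eval_monomial, one_mul,
    Finsupp.prod_fintype _ _ (by simp), Finset.prod_eq_zero_iff] at h2
  obtain ⟨i, -, hi⟩ := h2
  have h3 : inc p (x i) = 0 := by
    by_contra h4
    exact pow_ne_zero _ h4 hi
  rw [Set.mem_iUnion]
  refine ⟨i, ?_⟩
  change x i = 0
  have h6 : ((x i : ℤ_[p]) : ℚ_[p]) = ((0 : ℤ_[p]) : ℚ_[p]) := by
    rw [PadicInt.coe_zero]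
    exact h3
  exact Subtype.ext h6

/-- the zeta function of the sparse polynomial -/
theorem Zi_mono [DecidableEq σ] [DecidableEq ι] [Nonempty ι] (v : ι → σ →₀ ℕ) {s : ℝ} (hs : 0 ≤ s) :
    (((Pool.Agent.W427.SMC.Zi (κ := Unit) (Jk := fun _ => ι) (fun _ : σ => 0) (fun _ => 1)
      (fun _ _ => 1) (fun _ _ => 1) (fun _ j i => v j i) p s).toReal : ℝ) : ℂ) =
      Pool.Agent.Y230.PS.FF (FamQ.toP p (monoQ v)) s *
        ((Pool.Agent.W427.SMC.phi p s).toReal : ℂ) := by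
  rw [← FF_univK inferInstance _ hs, ← toP_univ]
  have h1 := FF_equiv (p := p) (eqv σ ι) (Equiv.refl (Fin 1))
    (FamQ.toP p (hyp (MvPolynomial.map (Int.castRingHom ℚ) (spP v))))
    (FamQ.toP p (monoQ v).univ) (fun j => ?_) s
  · rw [h1, FF_hyp]
    congr 2
    unfold Pool.Agent.W427.SMC.Zi
    refine MeasureTheory.lintegral_congr fun z => ?_
    rw [← Pool.Agent.W427.SMC.aeval_sparseProd]
    simp only [tau_N]
    rfl
  · change MvPolynomial.map (algebraMap ℚ ℚ_[p]) (∑ j, (MvPolynomial.X (Sum.inl j) *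
      MvPolynomial.rename Sum.inr (MvPolynomial.monomial (v j) 1))) = _
    rw [spP_univ, MvPolynomial.map_rename]
    rfl

/-- **Monomial ideals.** -/
theorem FR_mono [Nonempty ι] (v : ι → σ →₀ ℕ) :
    FR p (mM p (monoQ v)) (Pool.Agent.Y230.PS.FF (FamQ.toP p (monoQ v))) := by
  classical
  have hp1 : 1 < p := (Fact.out : p.Prime).one_lt
  have hne : ∃ j, (monoQ v).f j ≠ 0 := ⟨Classical.arbitrary ι, by
    change MvPolynomial.monomial (v _) (1 : ℚ) ≠ 0
    rw [Ne, MvPolynomial.monomial_eq_zero]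
    exact one_ne_zero⟩
  refine FR_of_out _ (mono_null v) _ fun T hT => ?_
  obtain ⟨b0, hb0, hfe⟩ := Pool.Agent.Y229.exists_fe (FamQ.toC (monoQ v)) (toC_ne (monoQ v) hne)
  have hex : ∃ k, ∃ b : ℂ[X], b ≠ 0 ∧ IsFunctionalEq (FamQ.toC (monoQ v)) b ∧
      b.rootMultiplicity ((rr p T : ℝ) : ℂ) = k := ⟨_, b0, hb0, hfe, rfl⟩
  obtain ⟨b, hb, hbe, hk⟩ := Nat.find_spec hex
  have hmin : ((b.rootMultiplicity ((rr p T : ℝ) : ℂ) : ℕ) : ℕ∞) ≤ mM p (monoQ v) T := by
    rw [hk, le_mM]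
    intro b' hb'
    by_cases h0 : b' = 0
    · rw [h0]
      exact dvd_zero _
    · rw [← le_rootMultiplicity_iff h0]
      exact Nat.find_min' hex ⟨b', h0, hb', rfl⟩
  -- the sparse polynomial
  have h1 : IsBFunction (univ (FamQ.toC (monoQ v))) ((X + 1) * b) :=
    Pool.Agent.W366.SI.taskI1' _ b hbe
  have h2 := single_of_isB _ _ h1
  have hpol : ∀ j : Fin 1, (fun _ : Fin 1 => univ (FamQ.toC (monoQ v))) ((Equiv.refl (Fin 1)) j) =
      MvPolynomial.rename (eqv σ ι) ((fun _ : Fin 1 => Pool.Agent.W427.SMC.pol (κ := Unit)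
        (Jk := fun _ => ι) (fun _ : σ => 0) (fun _ => 1) (fun _ _ => ((1 : ℤ) : ℂ)) (fun _ _ => 1)
          (fun _ j i => v j i)) j) := by
    intro j
    have h3 := congrArg (MvPolynomial.map (algebraMap ℚ ℂ)) (spP_univ v)
    rw [MvPolynomial.map_rename, MvPolynomial.map_map] at h3
    have h4 : (algebraMap ℚ ℂ).comp (Int.castRingHom ℚ) = Int.castRingHom ℂ := RingHom.ext_int _ _
    rw [h4] at h3
    have h5 := Pool.Agent.W427.SMC.map_sparseProd (κ := Unit) (Jk := fun _ => ι)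
      (fun _ : σ => 0) (fun _ => 1) (fun _ _ => 1) (fun _ _ => 1) (fun _ j i => v j i)
    beta_reduce
    rw [← h5]
    unfold spP at h3
    rw [← h3]
    have h6 := congrFun (toC_univ (monoQ v)) (0 : Fin 1)
    exact h6.symm
  have h3 := functionalEq_equiv (eqv σ ι) (Equiv.refl (Fin 1)) _ _ hpol _ h2
  have h4 := Pool.Agent.Y229.isB_of_single _ _ h3
  obtain ⟨b'', S, hbb, hS, hrel⟩ := Pool.Agent.W427.SMC.rel_ok (κ := Unit) (Jk := fun _ => ι)
    (fun _ : σ => 0) (fun _ => 1) (fun _ _ => ((1 : ℤ) : ℂ)) (fun _ _ => 1) (fun _ j i => v j i)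
    (fun _ _ => one_pos) (fun _ _ => by norm_num) (fun _ => one_pos)
    (fun _ => Classical.arbitrary ι) _ h4
  have hC : Pool.Agent.W427.SMC.Cpoly (fun _ : Unit => 1) = X + 1 := by
    unfold Pool.Agent.W427.SMC.Cpoly
    simp
  rw [hC] at hbb
  have hX1 : (X + 1 : ℂ[X]) ≠ 0 := by
    rw [X_add_one]
    exact X_sub_C_ne_zero _
  have hbb' : b = b'' := mul_left_cancel₀ hX1 hbb
  rw [← hbb'] at hrel
  obtain ⟨β, hβ0, hβ, hβm⟩ := Pool.Agent.W427.SMC.transfer (fun q : Σ k : Unit, ι => q.1)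
    (fun _ => 1) (Pool.Agent.W427.SMC.EE (fun _ _ => 1) (fun _ j i => v j i))
    (Pool.Agent.W427.SMC.aa (fun _ : σ => 0)) p hp1 b hb S hrel
  obtain ⟨P, e, hP⟩ := Pool.Agent.W427.SMC.Z_laur (κ := Unit) (Jk := fun _ => ι)
    (fun _ : σ => 0) (fun _ => 1) (fun _ _ => 1) (fun _ _ => 1) (fun _ j i => v j i) p
    (fun _ _ => one_ne_zero) (fun _ _ => one_pos) (fun _ => inferInstance) S hS β hβ
  refine ⟨X ^ e * (β * C ((p : ℂ) - 1)), P, ?_, ?_, fun s hs => ?_⟩
  · refine mul_ne_zero (pow_ne_zero _ X_ne_zero) (mul_ne_zero hβ0 ?_)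
    rw [Ne, C_eq_zero, sub_eq_zero]
    exact_mod_cast hp1.ne'
  · have hT0 : T ≠ 0 := by
      rintro rfl
      rw [norm_zero] at hT
      linarith
    have hc0 : (C ((p : ℂ) - 1) : ℂ[X]) ≠ 0 := by
      rw [Ne, C_eq_zero, sub_eq_zero]
      exact_mod_cast hp1.ne'
    have hD0 : (X ^ e * (β * C ((p : ℂ) - 1)) : ℂ[X]) ≠ 0 :=
      mul_ne_zero (pow_ne_zero _ X_ne_zero) (mul_ne_zero hβ0 hc0)
    rw [rootMultiplicity_mul hD0, rootMultiplicity_mul (mul_ne_zero hβ0 hc0),
      rootMultiplicity_C, add_zero]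
    have h5 : (X ^ e : ℂ[X]).rootMultiplicity T = 0 := by
      apply rootMultiplicity_eq_zero
      rw [IsRoot, eval_pow, eval_X]
      exact pow_ne_zero _ hT0
    rw [h5, zero_add]
    refine le_trans ?_ hmin
    exact_mod_cast hβm T
  · rw [← hP s hs, Zi_mono v hs]
    have h5 := phi_eq p s hs
    have h6 := congrArg (fun x : ℝ => (x : ℂ)) h5
    push_cast at h6
    have h7 : (((p : ℝ) ^ (-s) : ℝ) : ℂ) = ((tr' p s : ℝ) : ℂ) := rfl
    rw [h7] at h6
    simp only [eval_mul, eval_pow, eval_X, eval_C, Finset.univ_unique, Finset.prod_const,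
      Finset.card_singleton, pow_one]
    linear_combination (-((tr' p s : ℝ) : ℂ) ^ e * β.eval ((tr' p s : ℝ) : ℂ) *
      Pool.Agent.Y230.PS.FF (FamQ.toP p (monoQ v)) s) * h6

end Pool.Agent.R852.PP
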