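import Pool.Agent.R852.PP.Main

set_option autoImplicit false
set_option linter.unusedSectionVars false
set_option linter.unusedVariables false

/-! # The orders of the poles of the Poincare series -/

namespace Pool.Agent.R852.PP

open MvPolynomial Pool.Agent.W427.SMC Pool.Agent.Y230.PT Pool.Agent.Y230.PS Pool.Agent.Y230.TH
open Pool.Agent.H628R4.TP (IsBFunction)

variable {p : ℕ} [Fact p.Prime] {V : Type} [Fintype V]

theorem poin_M (F : MvPolynomial V ℤ)
    (hF : PTS true false (hyp (map (Int.castRingHom ℚ) F)))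
    (b : Polynomial ℂ) (hb0 : b ≠ 0)
    (hb : Pool.Agent.H628R4.TP.IsBFunction (map (Int.castRingHom ℂ) F) b) :
    ∃ Φ : RatFunc ℂ, ((Φ.denom : Polynomial ℂ) : PowerSeries ℂ) * poincare p F =
        ((Φ.num : Polynomial ℂ) : PowerSeries ℂ) ∧
      ∀ T₀ : ℂ, Φ.denom.rootMultiplicity T₀ ≤
        b.rootMultiplicity ((-Real.log ‖T₀‖ / Real.log p : ℝ) : ℂ) := by
  obtain ⟨D, P, hD0, h1, h2⟩ := coreP_Z (p := p) isMltP_M F hF
  obtain ⟨Φ, h3, h4, h5⟩ := poincare_of p _ D P hD0 h1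
  refine ⟨Φ, h3, fun T => ?_⟩
  by_cases hT : T = 0
  · rw [hT, h4]
    exact Nat.zero_le _
  · refine (h5 T).trans ?_
    exact mult_of_tr (p := p) (map (Int.castRingHom ℚ) F) b hb0 (by
      rw [map_map]
      exact hb) _ _ (h2 T hT)

end Pool.Agent.R852.PP
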